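import Pool.Agent.Lib.MP_42e615_an.Wind

set_option autoImplicit false

open Real Set Filter Topology Polynomial

namespace Pool.Agent.Lib.MP_42e615_an

lemma eval_reflect {K : Type*} [Field K] {N : ℕ} {f : K[X]} (hf : f.natDegree ≤ N) {x : K}
    (hx : x ≠ 0) : f.eval x = (reflect N f).eval x⁻¹ * x ^ N := by
  let := invertibleOfNonzero hx
  have := eval₂_reflect_mul_pow (RingHom.id K) x N f hf
  rw [invOf_eq_inv] at this
  exact this.symm

lemma natDegree_reflect_le' {K : Type*} [Semiring K] {N : ℕ} {f : K[X]} (hf : f.natDegree ≤ N) :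
    (reflect N f).natDegree ≤ N := natDegree_reflect_le.trans (max_le le_rfl hf)

lemma eval_reflect' {K : Type*} [Field K] {N : ℕ} {f : K[X]} (hf : f.natDegree ≤ N) {x : K}
    (hx : x ≠ 0) : (reflect N f).eval x = f.eval x⁻¹ * x ^ N := by
  have := eval_reflect (natDegree_reflect_le' hf) hx
  rwa [reflect_reflect] at this

lemma eval_nonneg_of_coeff {f : ℝ[X]} (hf : ∀ k, 0 ≤ f.coeff k) {x : ℝ} (hx : 0 ≤ x) :
    0 ≤ f.eval x := by
  rw [eval_eq_sum_range]
  exact Finset.sum_nonneg fun i _ => mul_nonneg (hf i) (pow_nonneg hx i)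

lemma nonneg_of_ode {Y : ℝ[X]} {m a : ℝ} (hm : 0 < m)
    (h : ∀ x, a < x → 0 ≤ m * Y.eval x - Y.derivative.eval x) {x : ℝ} (hx : a ≤ x) :
    0 ≤ Y.eval x := by
  have hd : ∀ t, HasDerivAt (fun t => Y.eval t * Real.exp (-m * t))
      (-(m * Y.eval t - Y.derivative.eval t) * Real.exp (-m * t)) t := by
    intro t
    refine ((Y.hasDerivAt t).mul ((hasDerivAt_id t).const_mul (-m)).exp).congr_deriv ?_
    simp; ring
  have hanti : AntitoneOn (fun t => Y.eval t * Real.exp (-m * t)) (Ici a) := by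
    refine antitoneOn_of_deriv_nonpos (convex_Ici a)
      (fun t _ => (hd t).continuousAt.continuousWithinAt)
      (fun t _ => (hd t).differentiableAt.differentiableWithinAt) fun t ht => ?_
    rw [(hd t).deriv]
    rw [interior_Ici] at ht
    exact mul_nonpos_of_nonpos_of_nonneg (by linarith [h t ht]) (Real.exp_pos _).le
  have hlim : Tendsto (fun t => Y.eval t * Real.exp (-m * t)) atTop (𝓝 0) := by
    have h1 := (Polynomial.tendsto_div_exp_atTop (Y.comp (C m⁻¹ * X))).comp
      (tendsto_id.const_mul_atTop hm)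
    refine h1.congr fun t => ?_
    simp only [Function.comp, id, eval_comp, eval_mul, eval_C, eval_X]
    rw [inv_mul_cancel_left₀ hm.ne', neg_mul, Real.exp_neg, div_eq_mul_inv]
  have h2 : 0 ≤ Y.eval x * Real.exp (-m * x) := by
    refine le_of_tendsto hlim ?_
    filter_upwards [eventually_ge_atTop x] with t ht
    exact hanti hx (hx.trans ht) ht
  exact nonneg_of_mul_nonneg_left h2 (Real.exp_pos _)

lemma exists_le_on_Icc (f p : ℝ[X]) (hp : ∀ x ∈ Icc (0 : ℝ) 1, 0 < p.eval x) :
    ∃ C : ℝ, 0 < C ∧ ∀ x ∈ Icc (0 : ℝ) 1, f.eval x ≤ C * p.eval x := by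
  have hc : ContinuousOn (fun x => f.eval x / p.eval x) (Icc (0 : ℝ) 1) :=
    f.continuous.continuousOn.div p.continuous.continuousOn fun x hx => (hp x hx).ne'
  obtain ⟨C, hC⟩ := isCompact_Icc.exists_bound_of_continuousOn hc
  refine ⟨|C| + 1, by positivity, fun x hx => ?_⟩
  rw [← div_le_iff₀ (hp x hx)]
  have := hC x hx
  linarith [le_abs_self C, le_abs_self (f.eval x / p.eval x), Real.norm_eq_abs (f.eval x / p.eval x)]

lemma exists_le_on_Ici {N : ℕ} {f p : ℝ[X]} (hf : f.natDegree ≤ N) (hpN : p.natDegree ≤ N)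
    (hp : ∀ x ∈ Icc (0 : ℝ) 1, 0 < p.eval x) (hR : ∀ x ∈ Icc (0 : ℝ) 1, 0 < (reflect N p).eval x) :
    ∃ C : ℝ, 0 < C ∧ ∀ x, 0 ≤ x → f.eval x ≤ C * p.eval x := by
  obtain ⟨C₁, hC₁, h₁⟩ := exists_le_on_Icc f p hp
  obtain ⟨C₂, hC₂, h₂⟩ := exists_le_on_Icc (reflect N f) (reflect N p) hR
  refine ⟨C₁ + C₂, by positivity, fun x hx => ?_⟩
  rcases le_total x 1 with h | h
  · have := h₁ x ⟨hx, h⟩
    nlinarith [hp x ⟨hx, h⟩]
  · have hx0 : x ≠ 0 := by linarith
    have hm : x⁻¹ ∈ Icc (0 : ℝ) 1 := ⟨by positivity, inv_le_one_of_one_le₀ h⟩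
    rw [eval_reflect hf hx0, eval_reflect hpN hx0, ← mul_assoc]
    refine mul_le_mul_of_nonneg_right ?_ (by positivity)
    nlinarith [h₂ _ hm, hR _ hm]

lemma axis_pos {N : ℕ} {p : ℝ[X]} {μ c : ℝ} (hμ : 0 < μ) (hc : c ≠ 0) (hpN : p.natDegree ≤ N)
    (heq : C μ * p - derivative p = C c * reflect N p)
    (hp : ∀ x ∈ Icc (0 : ℝ) 1, 0 < p.eval x) :
    0 < c ∧ ∀ μ' e, Sub N μ' c e → μ' ≤ μ := by
  have hev : ∀ x, μ * p.eval x - p.derivative.eval x = c * (reflect N p).eval x := by
    intro x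
    have := congrArg (eval x) heq
    simpa using this
  have hR1 : ∀ x, 1 ≤ x → 0 < (reflect N p).eval x := by
    intro x hx
    rw [eval_reflect' hpN (by linarith)]
    exact mul_pos (hp _ ⟨by positivity, inv_le_one_of_one_le₀ hx⟩) (by positivity)
  have hc0 : 0 < c := by
    by_contra hc'
    have hc1 : c < 0 := lt_of_le_of_ne (not_lt.mp hc') hc
    have := nonneg_of_ode (Y := -p) (a := 1) hμ (fun x hx => by
      simp only [eval_neg, derivative_neg]
      nlinarith [hev x, hR1 x hx.le]) le_rfl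
    have h2 := hp 1 ⟨zero_le_one, le_rfl⟩
    simp only [eval_neg] at this
    linarith
  refine ⟨hc0, ?_⟩
  have hp1 : ∀ x, 1 ≤ x → 0 ≤ p.eval x := fun x hx =>
    nonneg_of_ode (a := 1) hμ (fun x hx => by nlinarith [hev x, hR1 x hx.le]) hx
  have hp2 : ∀ x, 1 ≤ x → 0 < p.eval x := by
    intro x hx
    rcases hx.eq_or_lt with rfl | hx'
    · exact hp 1 ⟨zero_le_one, le_rfl⟩
    refine lt_of_le_of_ne (hp1 x hx) fun h0 => ?_
    have hmin : IsLocalMin (fun t => p.eval t) x := by
      filter_upwards [Ioi_mem_nhds hx'] with t ht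
      rw [← h0]; exact hp1 t (le_of_lt ht)
    have h1 := hmin.hasDerivAt_eq_zero (p.hasDerivAt x)
    have h2 := hev x
    rw [h1, ← h0] at h2
    nlinarith [hR1 x hx]
  have hp3 : ∀ x, 0 ≤ x → 0 < p.eval x := fun x hx =>
    (le_total x 1).elim (fun h => hp x ⟨hx, h⟩) (hp2 x)
  have hR : ∀ x ∈ Icc (0 : ℝ) 1, 0 < (reflect N p).eval x := by
    intro x hx
    rcases hx.1.eq_or_lt with rfl | hx0
    · have h1 := congrArg (fun q => q.coeff N) heq
      simp only [coeff_sub, coeff_C_mul, coeff_derivative, coeff_reflect, revAt_le le_rfl,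
        Nat.sub_self, coeff_eq_zero_of_natDegree_lt (Nat.lt_succ_of_le hpN), zero_mul,
        sub_zero] at h1
      have h2 := hp 0 ⟨le_rfl, zero_le_one⟩
      rw [← coeff_zero_eq_eval_zero] at h2 ⊢
      rw [coeff_reflect, revAt_zero]
      by_contra h3
      nlinarith [mul_pos hc0 h2]
    · rw [eval_reflect' hpN hx0.ne']
      exact mul_pos (hp3 _ (by positivity)) (by positivity)
  intro μ' e he
  by_contra hlt
  push Not at hlt
  set E : ℝ[X] := ∑ k ∈ Finset.range (N + 1), monomial k (e k) with hE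
  have hEc : ∀ k, E.coeff k = e k := by
    intro k
    rw [hE, finsetSum_coeff]
    simp only [coeff_monomial]
    rw [Finset.sum_ite_eq' (Finset.range (N + 1)) k]
    split_ifs with hk
    · rfl
    · exact (he.2.1 k (by simpa using hk)).symm
  have hEN : E.natDegree ≤ N :=
    natDegree_le_iff_coeff_eq_zero.mpr fun k hk => by rw [hEc, he.2.1 k hk]
  have hE1 : 0 < E.eval 1 := by
    rw [hE, eval_finsetSum]
    simpa using he.sum_pos
  have hEsub : ∀ x, 0 ≤ x → μ' * E.eval x - E.derivative.eval x ≤ c * (reflect N E).eval x := by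
    intro x hx
    have := eval_nonneg_of_coeff (f := C c * reflect N E - (C μ' * E - derivative E)) (fun k => by
      simp only [coeff_sub, coeff_C_mul, coeff_derivative, coeff_reflect, hEc]
      by_cases hk : k ≤ N
      · rw [revAt_le hk]
        linarith [he.2.2.2 k hk]
      · rw [revAt_eq_self_of_lt (by omega), he.2.1 k (by omega), he.2.1 (k + 1) (by omega)]
        simp) hx
    simp only [eval_sub, eval_mul, eval_C] at this
    linarith
  obtain ⟨t₀, ht₀, hT₀⟩ := exists_le_on_Ici hEN hpN hp hR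
  obtain ⟨C₁, hC₁, hRC⟩ := exists_le_on_Ici (natDegree_reflect_le' hpN) hpN hp hR
  set κ := (μ' - μ) / (μ' - μ + c * C₁) with hκ
  have hden : 0 < μ' - μ + c * C₁ := by nlinarith [mul_pos hc0 hC₁]
  have hκ0 : 0 < κ := div_pos (by linarith) hden
  have hκ1 : κ ≤ 1 := by
    rw [hκ, div_le_one hden]; nlinarith [mul_pos hc0 hC₁]
  have hκ2 : κ * (μ' - μ + c * C₁) = μ' - μ := div_mul_cancel₀ _ hden.ne'
  have hstep : ∀ t, 0 ≤ t → (∀ x, 0 ≤ x → E.eval x ≤ t * p.eval x) →
      ∀ x, 0 ≤ x → E.eval x ≤ (1 - κ) * t * p.eval x := by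
    intro t ht hT x hx
    have := nonneg_of_ode (Y := C ((1 - κ) * t) * p - E) (m := μ') (a := 0) (by linarith)
      (fun y hy => by
        have h1 : (reflect N E).eval y ≤ t * (reflect N p).eval y := by
          rw [eval_reflect' hEN hy.ne', eval_reflect' hpN hy.ne', ← mul_assoc]
          exact mul_le_mul_of_nonneg_right (hT _ (by positivity)) (by positivity)
        have h2 := hEsub y hy.le
        have h3 := hev y
        have h4 := hRC y hy.le
        have h5 := hp3 y hy.le
        simp only [eval_sub, eval_mul, eval_C, derivative_sub, derivative_C_mul]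
        have h6 : p.derivative.eval y = μ * p.eval y - c * (reflect N p).eval y := by linarith
        rw [h6]
        have h7 : κ * t * (c * (reflect N p).eval y) ≤ κ * t * (c * (C₁ * p.eval y)) := by
          gcongr
        have h8 : c * (reflect N E).eval y ≤ c * (t * (reflect N p).eval y) := by gcongr
        have h9 : t * p.eval y * (κ * (μ' - μ + c * C₁)) = t * p.eval y * (μ' - μ) := by rw [hκ2]
        nlinarith) hx
    simp only [eval_sub, eval_mul, eval_C] at this
    linarith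
  have hiter : ∀ n : ℕ, ∀ x, 0 ≤ x → E.eval x ≤ (1 - κ) ^ n * t₀ * p.eval x := by
    intro n
    induction n with
    | zero => simpa using hT₀
    | succ n ih =>
      intro x hx
      have := hstep _ (mul_nonneg (pow_nonneg (by linarith) n) ht₀.le) ih x hx
      rw [pow_succ]; linarith
  have hlim : Tendsto (fun n : ℕ => (1 - κ) ^ n * t₀ * p.eval 1) atTop (𝓝 (0 * t₀ * p.eval 1)) :=
    ((tendsto_pow_atTop_nhds_zero_of_lt_one (by linarith) (by linarith)).mul_const _).mul_const _
  have := ge_of_tendsto' hlim fun n => hiter n 1 zero_le_one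
  linarith

lemma axis {N : ℕ} {p : ℝ[X]} {μ c : ℝ} (hμ : 0 < μ) (hc : c ≠ 0) (hpN : p.natDegree ≤ N)
    (heq : C μ * p - derivative p = C c * reflect N p)
    (hp : ∀ x ∈ Icc (0 : ℝ) 1, p.eval x ≠ 0) :
    0 < c ∧ ∀ μ' e, Sub N μ' c e → μ' ≤ μ := by
  have h0 : (0 : ℝ) ∈ Icc (0 : ℝ) 1 := ⟨le_rfl, zero_le_one⟩
  rcases lt_or_gt_of_ne (hp 0 h0) with h | h
  · refine axis_pos (p := -p) hμ hc (by simpa using hpN) ?_ fun x hx => ?_
    · rw [reflect_neg, derivative_neg]; linear_combination -heq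
    · rw [eval_neg, neg_pos]
      by_contra h1
      obtain ⟨y, hy, hy'⟩ := isPreconnected_Icc.intermediate_value₂ h0 hx
        p.continuous.continuousOn continuousOn_const h.le (not_lt.mp h1)
      exact hp y hy hy'
  · refine axis_pos hμ hc hpN heq fun x hx => ?_
    by_contra h1
    obtain ⟨y, hy, hy'⟩ := isPreconnected_Icc.intermediate_value₂ hx h0
      p.continuous.continuousOn continuousOn_const (not_lt.mp h1) h.le
    exact hp y hy hy'

end Pool.Agent.Lib.MP_42e615_an
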