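import Pool.Agent.Lib.MP_42e615_an.Lin

set_option autoImplicit false

open Real Set Filter Topology Complex ComplexConjugate
open scoped ContDiff

namespace Pool.Agent.Lib.MP_42e615_an

section Abstract

variable {R : Type*} [CommRing R] {D : R →+ R} {σ : R →+* R} {z u : R}

lemma iter_const_mul (hD : ∀ f g, D (f * g) = f * D g + g * D f) {a : R} (ha : D a = 0)
    (n : ℕ) (f : R) : D^[n] (a * f) = a * D^[n] f := by
  induction n with
  | zero => rfl
  | succ n ih => rw [Function.iterate_succ_apply', ih, hD, ha, Function.iterate_succ_apply']; ring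

lemma D_natCast (hD : ∀ f g, D (f * g) = f * D g + g * D f) (n : ℕ) : D (n : R) = 0 := by
  have h1 : D 1 = 0 := by
    have := hD 1 1
    rw [mul_one, one_mul] at this
    exact left_eq_add.mp this
  induction n with
  | zero => simp
  | succ n ih => rw [Nat.cast_succ, map_add, ih, h1, add_zero]

lemma iter_z_mul (hD : ∀ f g, D (f * g) = f * D g + g * D f) (hDz : D z = 1) (n : ℕ) (f : R) :
    D^[n] (z * D f) = z * D^[n + 1] f + n * D^[n] f := by
  induction n with
  | zero => simp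
  | succ n ih =>
    rw [Function.iterate_succ_apply', ih, map_add, hD, hD, hDz, D_natCast hD,
      ← Function.iterate_succ_apply' D (n + 1), ← Function.iterate_succ_apply' D n]
    push_cast; ring

lemma D_z_pow (hD : ∀ f g, D (f * g) = f * D g + g * D f) (hDz : D z = 1) (hzu : z * u = 1)
    (n : ℕ) : D (z ^ n) = n * (z ^ n * u) := by
  induction n with
  | zero => simpa using D_natCast hD 1
  | succ n ih =>
    rw [pow_succ, hD, ih, hDz]
    push_cast
    linear_combination (-z ^ n) * hzu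

lemma bol (hD : ∀ f g, D (f * g) = f * D g + g * D f) (hDz : D z = 1) (hzu : z * u = 1)
    (hσz : σ z = u) (hσ : ∀ f, D (σ f) = -u ^ 2 * σ (D f)) (n : ℕ) (f : R) :
    D^[n] (z ^ n * u * σ f) = (-1) ^ n * u ^ (n + 1) * σ (D^[n] f) := by
  induction n generalizing f with
  | zero => simp
  | succ n ih =>
    have h1 : z ^ (n + 1) * u * σ f = z ^ n * σ f := by
      linear_combination (z ^ n * σ f) * hzu
    have h2 : D (z ^ n * σ f) = n * (z ^ n * u * σ f) - z ^ n * u * σ (z * D f) := by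
      rw [hD, hσ, D_z_pow hD hDz hzu, map_mul, hσz]; ring
    rw [Function.iterate_succ_apply, h1, h2, iterate_map_sub, iter_const_mul hD (D_natCast hD n),
      ih, ih, iter_z_mul hD hDz, map_add, map_mul, map_mul, hσz, map_natCast]
    ring

end Abstract

noncomputable def Dop (f : ℝ → ℂ) : ℝ → ℂ := fun τ => -I * cis (-τ) * deriv f τ

lemma contDiff_cis_mul (a : ℝ) : ContDiff ℝ ∞ (fun τ : ℝ => cis (a * τ)) := by
  unfold cis
  have h : ContDiff ℝ ∞ (fun τ : ℝ => ((a * τ : ℝ) : ℂ)) :=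
    Complex.ofRealCLM.contDiff.comp (contDiff_const.mul contDiff_id)
  exact (h.mul contDiff_const).cexp

lemma contDiff_cis : ContDiff ℝ ∞ cis := by simpa using contDiff_cis_mul 1

lemma contDiff_cis_neg : ContDiff ℝ ∞ (fun τ : ℝ => cis (-τ)) := by
  simpa using contDiff_cis_mul (-1)

lemma contDiff_conj {n : WithTop ℕ∞} {f : ℝ → ℂ} (hf : ContDiff ℝ n f) :
    ContDiff ℝ n (fun τ => conj (f τ)) :=
  Complex.conjCLE.contDiff.comp hf

lemma contDiff_Dop {f : ℝ → ℂ} (hf : ContDiff ℝ ∞ f) : ContDiff ℝ ∞ (Dop f) :=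
  (contDiff_const.mul contDiff_cis_neg).mul (contDiff_infty_iff_deriv.mp hf).2

lemma contDiff_Dop_iter {f : ℝ → ℂ} (hf : ContDiff ℝ ∞ f) (n : ℕ) : ContDiff ℝ ∞ (Dop^[n] f) := by
  induction n with
  | zero => exact hf
  | succ n ih => rw [Function.iterate_succ_apply']; exact contDiff_Dop ih

lemma hasDerivAt_of_smooth {f : ℝ → ℂ} (hf : ContDiff ℝ ∞ f) (τ : ℝ) :
    HasDerivAt f (I * cis τ * Dop f τ) τ := by
  refine ((contDiff_infty_iff_deriv.mp hf).1 τ).hasDerivAt.congr_deriv ?_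
  unfold Dop
  linear_combination (deriv f τ * cis τ * cis (-τ)) * I_mul_I - deriv f τ * cis_mul_neg τ

lemma Dop_of_hasDerivAt {f : ℝ → ℂ} {τ : ℝ} {d : ℂ} (h : HasDerivAt f d τ) :
    Dop f τ = -I * cis (-τ) * d := by
  unfold Dop; rw [h.deriv]

lemma Lin.contDiff {β μ c : ℝ} {H : ℝ → ℂ} (h : Lin β μ c H) : ContDiff ℝ ∞ H := by
  rw [contDiff_infty]
  intro n
  induction n with
  | zero => exact contDiff_zero.mpr h.continuous
  | succ n ih =>
    push_cast
    rw [contDiff_succ_iff_deriv]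
    refine ⟨h.differentiable, by simp, ?_⟩
    have : deriv H = fun τ => I * μ * cis τ * H τ - I * c * cis (-β * τ) * conj (H τ) :=
      funext fun τ => (h τ).deriv
    rw [this]
    have h1 : ContDiff ℝ n cis := contDiff_cis.of_le (by exact_mod_cast le_top)
    have h2 : ContDiff ℝ n (fun τ : ℝ => cis (-β * τ)) :=
      (contDiff_cis_mul (-β)).of_le (by exact_mod_cast le_top)
    exact ((contDiff_const.mul h1).mul ih).sub ((contDiff_const.mul h2).mul (contDiff_conj ih))

def Sm : Subring (ℝ → ℂ) where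
  carrier := {f | ContDiff ℝ ∞ f}
  mul_mem' {a b} ha hb :=
    ContDiff.mul (show ContDiff ℝ ∞ a from ha) (show ContDiff ℝ ∞ b from hb)
  one_mem' := show ContDiff ℝ ∞ (fun _ : ℝ => (1 : ℂ)) from contDiff_const
  add_mem' {a b} ha hb :=
    ContDiff.add (show ContDiff ℝ ∞ a from ha) (show ContDiff ℝ ∞ b from hb)
  zero_mem' := show ContDiff ℝ ∞ (fun _ : ℝ => (0 : ℂ)) from contDiff_const
  neg_mem' {a} ha := ContDiff.neg (show ContDiff ℝ ∞ a from ha)

noncomputable def DS : Sm →+ Sm where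
  toFun f := ⟨Dop f, contDiff_Dop f.2⟩
  map_zero' := by
    ext τ
    simp [Dop]
  map_add' f g := by
    ext τ
    have h := Dop_of_hasDerivAt ((hasDerivAt_of_smooth f.2 τ).add (hasDerivAt_of_smooth g.2 τ))
    simp only [Subring.coe_add, Pi.add_apply]
    rw [h]
    linear_combination (-(Dop f τ + Dop g τ) * cis τ * cis (-τ)) * I_mul_I +
      (Dop f τ + Dop g τ) * cis_mul_neg τ

def σS : Sm →+* Sm where
  toFun f := ⟨fun τ => conj (f.1 τ), contDiff_conj (show ContDiff ℝ ∞ f.1 from f.2)⟩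
  map_one' := by ext τ; simp
  map_mul' f g := by ext τ; simp
  map_zero' := by ext τ; simp
  map_add' f g := by ext τ; simp

noncomputable def zS : Sm := ⟨cis, contDiff_cis⟩

noncomputable def uS : Sm := ⟨fun τ => cis (-τ), contDiff_cis_neg⟩

def cS (a : ℂ) : Sm := ⟨fun _ => a, show ContDiff ℝ ∞ (fun _ : ℝ => a) from contDiff_const⟩

lemma DS_val (f : Sm) : (DS f).1 = Dop f.1 := rfl

lemma DS_iter_val (n : ℕ) (f : Sm) : (DS^[n] f).1 = Dop^[n] f.1 := by
  induction n with
  | zero => rfl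
  | succ n ih => rw [Function.iterate_succ_apply', Function.iterate_succ_apply', DS_val, ih]

lemma DS_mul (f g : Sm) : DS (f * g) = f * DS g + g * DS f := by
  ext τ
  have h := Dop_of_hasDerivAt ((hasDerivAt_of_smooth f.2 τ).mul (hasDerivAt_of_smooth g.2 τ))
  simp only [DS_val, Subring.coe_add, Subring.coe_mul, Pi.add_apply, Pi.mul_apply]
  rw [h]
  linear_combination (-(f.1 τ * Dop g τ + g.1 τ * Dop f τ) * cis τ * cis (-τ)) * I_mul_I +
    (f.1 τ * Dop g τ + g.1 τ * Dop f τ) * cis_mul_neg τ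

lemma DS_z : DS zS = 1 := by
  ext τ
  have h := Dop_of_hasDerivAt (hasDerivAt_cis' τ)
  simp only [DS_val, zS, Subring.coe_one, Pi.one_apply]
  rw [h]
  linear_combination (-cis τ * cis (-τ)) * I_mul_I + cis_mul_neg τ

lemma DS_c (a : ℂ) : DS (cS a) = 0 := by
  ext τ
  simp [DS_val, cS, Dop]

lemma zS_mul_uS : zS * uS = 1 := by
  ext τ
  simp [zS, uS, cis_mul_neg]

lemma σS_z : σS zS = uS := by
  ext τ
  simp [σS, zS, uS, cis_conj]

lemma DS_σ (f : Sm) : DS (σS f) = -uS ^ 2 * σS (DS f) := by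
  ext τ
  have h : Dop (fun τ => conj (f.1 τ)) τ = _ :=
    Dop_of_hasDerivAt (hasDerivAt_of_smooth f.2 τ).star
  simp only [DS_val, σS, uS, RingHom.coe_mk, MonoidHom.coe_mk, OneHom.coe_mk, Subring.coe_mul,
    Subring.coe_neg, Subring.coe_pow, Pi.mul_apply, Pi.neg_apply, Pi.pow_apply]
  rw [h]
  simp only [star_mul', RCLike.star_def, Complex.conj_I, cis_conj]
  linear_combination (cis (-τ) ^ 2 * conj (Dop f τ)) * I_mul_I

lemma Lin.W {l : ℕ} {μ c : ℝ} {E : ℝ → ℂ} (h : Lin (-(l : ℝ)) μ c E) :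
    Lin l μ ((-1) ^ l * c) (Dop^[l] E) := by
  set e : Sm := ⟨E, h.contDiff⟩ with he
  have h1 : DS e = cS μ * e - cS c * (zS ^ l * uS * σS e) := by
    ext τ
    have := Dop_of_hasDerivAt (h τ)
    simp only [DS_val, he, σS, zS, uS, cS, RingHom.coe_mk, MonoidHom.coe_mk, OneHom.coe_mk,
      Subring.coe_mul, AddSubgroupClass.coe_sub, Subring.coe_pow, Pi.mul_apply, Pi.sub_apply,
      Pi.pow_apply]
    rw [this, cis_pow, neg_neg]
    linear_combination (-(μ * cis τ * E τ - c * cis (l * τ) * conj (E τ)) * cis (-τ)) * I_mul_I +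
      (μ * E τ) * cis_mul_neg τ
  have h2 : DS (DS^[l] e) = cS μ * DS^[l] e - cS c * ((-1) ^ l * uS ^ (l + 1) * σS (DS^[l] e)) := by
    rw [← Function.iterate_succ_apply' DS l, Function.iterate_succ_apply, h1, iterate_map_sub,
      iter_const_mul DS_mul (DS_c _), iter_const_mul DS_mul (DS_c _),
      bol DS_mul DS_z zS_mul_uS σS_z DS_σ]
  intro τ
  refine (hasDerivAt_of_smooth (contDiff_Dop_iter h.contDiff l) τ).congr_deriv ?_
  have h3 := congrFun (congrArg Subtype.val h2) τ
  simp only [DS_val, DS_iter_val, he, σS, uS, cS, RingHom.coe_mk, MonoidHom.coe_mk, OneHom.coe_mk,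
    Subring.coe_mul, AddSubgroupClass.coe_sub, Subring.coe_pow, Subring.coe_neg, Subring.coe_one,
    Pi.mul_apply, Pi.sub_apply, Pi.pow_apply, Pi.neg_apply, Pi.one_apply] at h3
  rw [h3, pow_succ, cis_pow]
  have : (l : ℝ) * -τ = -l * τ := by ring
  rw [this]
  push_cast
  linear_combination (-I * c * (-1) ^ l * cis (-l * τ) * conj (Dop^[l] E τ)) * cis_mul_neg τ

lemma Dop_iter_shift (f : ℝ → ℂ) (n : ℕ) :
    Dop^[n] (fun τ => f (τ + 2 * π)) = fun τ => Dop^[n] f (τ + 2 * π) := by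
  induction n with
  | zero => rfl
  | succ n ih =>
    rw [Function.iterate_succ_apply', Function.iterate_succ_apply', ih]
    ext τ
    unfold Dop
    rw [deriv_comp_add_const, ← cis_conj, ← cis_conj, cis_add_two_pi]

lemma exists_coeffs (β μ : ℝ) (j : ℕ) : ∃ a b : ℝ × ℝ → ℂ, ContDiff ℝ ∞ a ∧ ContDiff ℝ ∞ b ∧
    (∀ τ, b (0, τ) = 0) ∧
    ∀ c E, Lin β μ c E → ∀ τ, Dop^[j] E τ = a (c, τ) * E τ + b (c, τ) * conj (E τ) := by
  induction j with
  | zero => exact ⟨fun _ => 1, fun _ => 0, contDiff_const, contDiff_const, fun _ => rfl, by simp⟩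
  | succ j ih =>
    obtain ⟨a, b, ha, hb, hb0, hab⟩ := ih
    have hpd : ∀ {g : ℝ × ℝ → ℂ}, ContDiff ℝ ∞ g → ∀ c τ : ℝ,
        HasDerivAt (fun t => g (c, t)) (fderiv ℝ g (c, τ) (0, 1)) τ := by
      intro g hg c τ
      have h1 : HasDerivAt (fun t : ℝ => ((c, t) : ℝ × ℝ)) (0, 1) τ :=
        (hasDerivAt_const τ c).prodMk (hasDerivAt_id τ)
      exact (hg.differentiable (by simp) (c, τ)).hasFDerivAt.comp_hasDerivAt τ h1
    have hsm : ∀ {g : ℝ × ℝ → ℂ}, ContDiff ℝ ∞ g →
        ContDiff ℝ ∞ (fun p => fderiv ℝ g p (0, 1)) := by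
      intro g hg
      exact (hg.fderiv_right (m := ∞) (by simp)).clm_apply contDiff_const
    have hc1 : ContDiff ℝ ∞ (fun p : ℝ × ℝ => (p.1 : ℂ)) :=
      Complex.ofRealCLM.contDiff.comp contDiff_fst
    have hc2 : ∀ k : ℝ, ContDiff ℝ ∞ (fun p : ℝ × ℝ => cis (k * p.2)) :=
      fun k => (contDiff_cis_mul k).comp contDiff_snd
    have hc3 : ContDiff ℝ ∞ (fun p : ℝ × ℝ => cis p.2) := contDiff_cis.comp contDiff_snd
    have hc4 : ContDiff ℝ ∞ (fun p : ℝ × ℝ => cis (-p.2)) := contDiff_cis_neg.comp contDiff_snd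
    refine ⟨fun p => -I * cis (-p.2) *
        (fderiv ℝ a p (0, 1) + a p * (I * μ * cis p.2) + b p * (I * p.1 * cis (β * p.2))),
      fun p => -I * cis (-p.2) *
        (fderiv ℝ b p (0, 1) - a p * (I * p.1 * cis (-β * p.2)) - b p * (I * μ * cis (-p.2))),
      ?_, ?_, ?_, ?_⟩
    · exact (contDiff_const.mul hc4).mul (((hsm ha).add (ha.mul (contDiff_const.mul hc3))).add
        (hb.mul ((contDiff_const.mul hc1).mul (hc2 β))))
    · exact (contDiff_const.mul hc4).mul (((hsm hb).sub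
        (ha.mul ((contDiff_const.mul hc1).mul (hc2 (-β))))).sub (hb.mul (contDiff_const.mul hc4)))
    · intro τ
      have h1 := hpd hb 0 τ
      simp only [hb0] at h1
      have h2 := h1.unique (hasDerivAt_const τ (0 : ℂ))
      simp [h2, hb0]
    · intro c E hE τ
      rw [Function.iterate_succ_apply', funext (hab c E hE)]
      refine (Dop_of_hasDerivAt
        (((hpd ha c τ).mul (hE τ)).add ((hpd hb c τ).mul (hE τ).star))).trans ?_
      simp only [star_sub, star_mul', RCLike.star_def, Complex.conj_I, cis_conj, conj_ofReal,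
        Complex.conj_conj, neg_mul, neg_neg]
      ring

lemma exists_poly (n : ℕ) : ∀ {f : ℝ → ℂ}, ContDiff ℝ ∞ f → Dop^[n] f = 0 →
    ∃ p : Polynomial ℂ, (∀ k, n ≤ k → p.coeff k = 0) ∧ ∀ τ, f τ = p.eval (cis τ) := by
  induction n with
  | zero =>
    intro f _ h
    exact ⟨0, by simp, fun τ => by simpa using congrFun h τ⟩
  | succ n ih =>
    intro f hf h
    rw [Function.iterate_succ_apply] at h
    obtain ⟨q, hq, hq'⟩ := ih (contDiff_Dop hf) h
    set Q : Polynomial ℂ :=
      ∑ k ∈ Finset.range n, Polynomial.monomial (k + 1) (q.coeff k / (k + 1)) with hQ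
    have hQd : Q.derivative = q := by
      ext k
      rw [hQ, Polynomial.derivative_sum, Polynomial.finsetSum_coeff]
      simp only [Polynomial.derivative_monomial_succ, Polynomial.coeff_monomial]
      rw [Finset.sum_ite_eq' (Finset.range n) k]
      split_ifs with hk
      · have : (k : ℂ) + 1 ≠ 0 := by exact_mod_cast Nat.succ_ne_zero k
        field_simp
      · exact (hq k (by simpa using hk)).symm
    have hd : ∀ τ, HasDerivAt (fun τ => f τ - Q.eval (cis τ)) 0 τ := by
      intro τ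
      have h1 := (Q.hasDerivAt (cis τ)).comp_of_eq τ (hasDerivAt_cis' τ) rfl
      refine ((hasDerivAt_of_smooth hf τ).sub h1).congr_deriv ?_
      rw [hQd, hq']; ring
    refine ⟨Q + Polynomial.C (f 0 - Q.eval (cis 0)), fun k hk => ?_, fun τ => ?_⟩
    · rw [Polynomial.coeff_add, Polynomial.coeff_C, if_neg (by omega), hQ,
        Polynomial.finsetSum_coeff, add_zero]
      refine Finset.sum_eq_zero fun i hi => ?_
      rw [Polynomial.coeff_monomial, if_neg]
      have := Finset.mem_range.mp hi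
      omega
    · have := is_const_of_deriv_eq_zero (fun t => (hd t).differentiableAt)
        (fun t => (hd t).deriv) τ 0
      simp only [Polynomial.eval_add, Polynomial.eval_C]
      linear_combination this

end Pool.Agent.Lib.MP_42e615_an
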