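import Mathlib

set_option autoImplicit false

open Real Set Filter Topology

namespace Pool.Agent.Lib.MP_42e615_an

/-- vector field in the time variable of period `2π` -/
noncomputable def vf (s β μ τ x : ℝ) : ℝ := -(2 * s) * sin x + β + 2 * μ * cos τ

def IsSol (s β μ : ℝ) (φ : ℝ → ℝ) : Prop := ∀ τ, HasDerivAt φ (vf s β μ τ (φ τ)) τ

lemma vf_lip (s β μ τ : ℝ) : LipschitzWith (Real.nnabs (2 * s)) (vf s β μ τ) := by
  refine LipschitzWith.of_dist_le_mul fun x y => ?_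
  have h := Real.lipschitzWith_sin.dist_le_mul x y
  simp only [Real.dist_eq, NNReal.coe_one, one_mul] at h
  simp only [Real.dist_eq, vf, Real.coe_nnabs]
  have : -(2 * s) * sin x + β + 2 * μ * cos τ - (-(2 * s) * sin y + β + 2 * μ * cos τ)
      = -(2 * s) * (sin x - sin y) := by ring
  rw [this, abs_mul, abs_neg]
  exact mul_le_mul_of_nonneg_left h (abs_nonneg _)

lemma vf_bound (s β μ τ x : ℝ) : |vf s β μ τ x| ≤ |2 * s| + |β| + |2 * μ| := by
  unfold vf
  have h1 : |-(2 * s) * sin x| ≤ |2 * s| := by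
    rw [abs_mul, abs_neg]
    exact mul_le_of_le_one_right (abs_nonneg _) (abs_sin_le_one x)
  have h2 : |2 * μ * cos τ| ≤ |2 * μ| := by
    rw [abs_mul]
    exact mul_le_of_le_one_right (abs_nonneg _) (abs_cos_le_one τ)
  calc _ ≤ |-(2 * s) * sin x + β| + |2 * μ * cos τ| := abs_add_le _ _
    _ ≤ |-(2 * s) * sin x| + |β| + |2 * μ * cos τ| := by gcongr; exact abs_add_le _ _
    _ ≤ _ := by linarith

lemma IsSol.differentiable {s β μ : ℝ} {φ : ℝ → ℝ} (h : IsSol s β μ φ) : Differentiable ℝ φ :=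
  fun τ => (h τ).differentiableAt

lemma IsSol.continuous {s β μ : ℝ} {φ : ℝ → ℝ} (h : IsSol s β μ φ) : Continuous φ :=
  h.differentiable.continuous

lemma IsSol.unique {s β μ : ℝ} {φ ψ : ℝ → ℝ} (h : IsSol s β μ φ) (h' : IsSol s β μ ψ) {t₀ : ℝ}
    (h0 : φ t₀ = ψ t₀) : φ = ψ :=
  ODE_solution_unique_univ (v := vf s β μ) (s := fun _ => univ) (K := Real.nnabs (2 * s))
    (fun t => (vf_lip s β μ t).lipschitzOnWith) (fun t => ⟨h t, trivial⟩)
    (fun t => ⟨h' t, trivial⟩) h0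

lemma exists_sol_Ioo (s β μ x : ℝ) (T : ℝ) (hT : 0 < T) :
    ∃ α : ℝ → ℝ, α 0 = x ∧ ∀ t ∈ Ioo (-T) T, HasDerivAt α (vf s β μ t (α t)) t := by
  set L : ℝ := |2 * s| + |β| + |2 * μ| with hL
  have hL0 : 0 ≤ L := by positivity
  have h0 : (0 : ℝ) ∈ Icc (-T) T := ⟨by linarith, hT.le⟩
  have hpl : IsPicardLindelof (vf s β μ) (tmin := -T) (tmax := T) ⟨0, h0⟩ x
      ⟨L * T, by positivity⟩ 0 ⟨L, hL0⟩ (Real.nnabs (2 * s)) := by
    refine ⟨fun t _ => (vf_lip s β μ t).lipschitzOnWith, fun y _ => ?_, fun t _ y _ => ?_, ?_⟩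
    · unfold vf; fun_prop
    · exact vf_bound s β μ t y
    · simp only [sub_zero, sub_neg_eq_add, zero_add, max_self, NNReal.coe_zero]
      exact le_rfl
  obtain ⟨α, hα0, hα⟩ := hpl.exists_eq_forall_mem_Icc_hasDerivWithinAt₀
  refine ⟨α, hα0, fun t ht => ?_⟩
  exact (hα t (Ioo_subset_Icc_self ht)).hasDerivAt (Icc_mem_nhds ht.1 ht.2)

lemma exists_sol (s β μ x : ℝ) : ∃ φ : ℝ → ℝ, φ 0 = x ∧ IsSol s β μ φ := by
  have H : ∀ n : ℕ, ∃ α : ℝ → ℝ, α 0 = x ∧
      ∀ t ∈ Ioo (-((n : ℝ) + 1)) ((n : ℝ) + 1), HasDerivAt α (vf s β μ t (α t)) t :=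
    fun n => exists_sol_Ioo s β μ x _ (by positivity)
  choose α hα0 hα using H
  have agree : ∀ m n : ℕ, m ≤ n → EqOn (α m) (α n) (Ioo (-((m : ℝ) + 1)) ((m : ℝ) + 1)) := by
    intro m n hmn
    have hmn' : (m : ℝ) ≤ n := by exact_mod_cast hmn
    have hm0 : (0 : ℝ) ≤ m := by positivity
    refine ODE_solution_unique_of_mem_Ioo (v := vf s β μ) (s := fun _ => univ)
      (K := Real.nnabs (2 * s)) (t₀ := 0) (fun t _ => (vf_lip s β μ t).lipschitzOnWith)
      ⟨by linarith, by linarith⟩ (fun t ht => ⟨hα m t ht, trivial⟩)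
      (fun t ht => ⟨hα n t ⟨by linarith [ht.1], by linarith [ht.2]⟩, trivial⟩) ?_
    rw [hα0, hα0]
  refine ⟨fun t => α ⌈|t|⌉₊ t, by simp [hα0], fun t => ?_⟩
  set N : ℕ := ⌈|t|⌉₊ + 2 with hN
  have hev : (fun u => α ⌈|u|⌉₊ u) =ᶠ[𝓝 t] α N := by
    have : Ioo (t - 1) (t + 1) ∈ 𝓝 t := Ioo_mem_nhds (by linarith) (by linarith)
    filter_upwards [this] with u hu
    have h1 : |u| ≤ ⌈|u|⌉₊ := Nat.le_ceil _
    have h2 : |t| ≤ ⌈|t|⌉₊ := Nat.le_ceil _
    have h3 : ⌈|u|⌉₊ ≤ N := by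
      rw [Nat.ceil_le, hN]
      push_cast
      have : |u| ≤ |t| + 1 := by
        rw [abs_le]; constructor
        · linarith [neg_abs_le t, hu.1]
        · linarith [le_abs_self t, hu.2]
      linarith
    refine agree _ _ h3 ⟨?_, ?_⟩
    · linarith [neg_abs_le u]
    · linarith [le_abs_self u]
  have ht : t ∈ Ioo (-((N : ℝ) + 1)) ((N : ℝ) + 1) := by
    have h2 : |t| ≤ ⌈|t|⌉₊ := Nat.le_ceil _
    rw [hN]; push_cast
    constructor
    · linarith [neg_abs_le t]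
    · linarith [le_abs_self t]
  have h1 := (hα N t ht).congr_of_eventuallyEq hev
  have h2 : α ⌈|t|⌉₊ t = α N t := hev.eq_of_nhds
  simpa [h2] using h1

noncomputable def flow (s β μ x : ℝ) : ℝ → ℝ := (exists_sol s β μ x).choose

lemma flow_zero (s β μ x : ℝ) : flow s β μ x 0 = x := (exists_sol s β μ x).choose_spec.1

lemma flow_sol (s β μ x : ℝ) : IsSol s β μ (flow s β μ x) := (exists_sol s β μ x).choose_spec.2

lemma IsSol.eq_flow {s β μ : ℝ} {φ : ℝ → ℝ} (h : IsSol s β μ φ) : φ = flow s β μ (φ 0) :=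
  h.unique (flow_sol s β μ _) (flow_zero s β μ _).symm

/-- Poincare map -/
noncomputable def P (s β μ x : ℝ) : ℝ := flow s β μ x (2 * π)

lemma IsSol.P_eq {s β μ : ℝ} {φ : ℝ → ℝ} (h : IsSol s β μ φ) : P s β μ (φ 0) = φ (2 * π) := by
  unfold P; rw [← h.eq_flow]

lemma IsSol.add_int {s β μ : ℝ} {φ : ℝ → ℝ} (h : IsSol s β μ φ) (k : ℤ) :
    IsSol s β μ (fun τ => φ τ + k * (2 * π)) := by
  intro τ
  refine ((h τ).add_const (k * (2 * π))).congr_deriv ?_
  simp [vf, sin_add_int_mul_two_pi]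

lemma IsSol.shift {s β μ : ℝ} {φ : ℝ → ℝ} (h : IsSol s β μ φ) :
    IsSol s β μ (fun τ => φ (τ + 2 * π)) := by
  intro τ
  refine ((h (τ + 2 * π)).comp_add_const τ (2 * π)).congr_deriv ?_
  simp [vf, cos_add_two_pi]

lemma P_add_int (s β μ x : ℝ) (k : ℤ) : P s β μ (x + k * (2 * π)) = P s β μ x + k * (2 * π) := by
  have h := ((flow_sol s β μ x).add_int k).P_eq
  simp only [flow_zero] at h
  rw [h]; rfl

lemma IsSol.lt_of_lt {s β μ : ℝ} {φ ψ : ℝ → ℝ} (h : IsSol s β μ φ) (h' : IsSol s β μ ψ) {t₀ : ℝ}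
    (h0 : φ t₀ < ψ t₀) (t : ℝ) : φ t < ψ t := by
  by_contra hc
  push Not at hc
  obtain ⟨u, hu⟩ := intermediate_value_univ₂ h.continuous h'.continuous h0.le hc
  have := h.unique h' hu
  rw [this] at h0
  exact lt_irrefl _ h0

lemma P_strictMono (s β μ : ℝ) : StrictMono (P s β μ) := by
  intro x y hxy
  exact (flow_sol s β μ x).lt_of_lt (flow_sol s β μ y) (t₀ := 0)
    (by rw [flow_zero, flow_zero]; exact hxy) _

lemma P_lt_of_beta {s β β' μ : ℝ} (hβ : β < β') (x : ℝ) : P s β μ x < P s β' μ x := by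
  set f := flow s β μ x
  set g := flow s β' μ x
  have hf : IsSol s β μ f := flow_sol s β μ x
  have hg : IsSol s β' μ g := flow_sol s β' μ x
  have hle : ∀ t ∈ Icc (0 : ℝ) (2 * π), f t ≤ g t := by
    refine image_le_of_deriv_right_lt_deriv_boundary (f' := fun t => vf s β μ t (f t))
      (B' := fun t => vf s β' μ t (g t)) hf.continuous.continuousOn
      (fun t _ => (hf t).hasDerivWithinAt) ?_ hg ?_
    · simp [f, g, flow_zero]
    · intro t _ ht
      simp only [vf, ht]; linarith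
  have h2 : f (2 * π) ≤ g (2 * π) := hle _ ⟨by positivity, le_rfl⟩
  rcases h2.lt_or_eq with h | h
  · exact h
  · exfalso
    have hd : HasDerivAt (fun t => g t - f t) (β' - β) (2 * π) := by
      refine ((hg (2 * π)).sub (hf (2 * π))).congr_deriv ?_
      simp only [vf, h]; ring
    have hmin : IsLocalMinOn (fun t => g t - f t) (Icc 0 (2 * π)) (2 * π) := by
      refine IsMinOn.localize ?_
      intro t ht
      have := hle t ht
      simp only [mem_ofPred_eq, h]; linarith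
    have hpos : (0 : ℝ) < 2 * π := by positivity
    have hmem : (0 - 2 * π : ℝ) ∈ posTangentConeAt (Icc 0 (2 * π)) (2 * π) := by
      apply sub_mem_posTangentConeAt_of_segment_subset
      rw [segment_symm, segment_eq_Icc hpos.le]
    have := hmin.hasFDerivWithinAt_nonneg hd.hasFDerivAt.hasFDerivWithinAt hmem
    simp at this
    nlinarith

lemma continuous_P : Continuous (fun p : (ℝ × ℝ × ℝ) × ℝ => P p.1.1 p.1.2.1 p.1.2.2 p.2) := by
  rw [continuous_iff_continuousAt]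
  rintro ⟨⟨s, β, μ⟩, x⟩
  set K := Real.nnabs (2 * s)
  have key : ∀ p : (ℝ × ℝ × ℝ) × ℝ, dist (P p.1.1 p.1.2.1 p.1.2.2 p.2) (P s β μ x) ≤
      gronwallBound (dist p.2 x) K
        ((|2 * (p.1.1 - s)| + |p.1.2.1 - β| + |2 * (p.1.2.2 - μ)|) + 0) (2 * π - 0) := by
    rintro ⟨⟨s', β', μ'⟩, x'⟩
    have hf := flow_sol s' β' μ' x'
    have hg := flow_sol s β μ x
    refine dist_le_of_approx_trajectories_ODE (v := vf s β μ) (K := K) (a := 0) (b := 2 * π)
      (f' := fun t => vf s' β' μ' t (flow s' β' μ' x' t))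
      (g' := fun t => vf s β μ t (flow s β μ x t))
      (vf_lip s β μ) hf.continuous.continuousOn (fun t _ => (hf t).hasDerivWithinAt) ?_
      hg.continuous.continuousOn (fun t _ => (hg t).hasDerivWithinAt) ?_ ?_ _
      ⟨by positivity, le_rfl⟩
    · intro t _
      rw [Real.dist_eq]
      have : vf s' β' μ' t (flow s' β' μ' x' t) - vf s β μ t (flow s' β' μ' x' t) =
          vf (s' - s) (β' - β) (μ' - μ) t (flow s' β' μ' x' t) := by unfold vf; ring
      rw [this]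
      exact vf_bound _ _ _ _ _
    · intro t _; simp
    · simp [flow_zero]
  rw [ContinuousAt, tendsto_iff_dist_tendsto_zero]
  refine squeeze_zero (fun _ => dist_nonneg) key ?_
  have hc : Continuous (fun p : (ℝ × ℝ × ℝ) × ℝ => gronwallBound (dist p.2 x) K
        ((|2 * (p.1.1 - s)| + |p.1.2.1 - β| + |2 * (p.1.2.2 - μ)|) + 0) (2 * π - 0)) := by
    unfold gronwallBound
    split_ifs <;> fun_prop
  have := hc.tendsto ((s, β, μ), x)
  simpa [gronwallBound_ε0_δ0] using this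

end Pool.Agent.Lib.MP_42e615_an
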