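import Pool.Agent.Lib.MP_42e615_an.Bol

set_option autoImplicit false

open Real Set Filter Topology Complex ComplexConjugate
open scoped ContDiff

namespace Pool.Agent.Lib.MP_42e615_an

noncomputable def co (k : ℤ) (f : ℝ → ℂ) : ℂ := ∫ τ in (0 : ℝ)..(2 * π), f τ * cis (-k * τ)

lemma continuous_cis_mul (a : ℝ) : Continuous (fun τ : ℝ => cis (a * τ)) :=
  continuous_cis.comp (by fun_prop)

lemma co_add (k : ℤ) {f g : ℝ → ℂ} (hf : Continuous f) (hg : Continuous g) :
    co k (fun τ => f τ + g τ) = co k f + co k g := by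
  unfold co
  rw [← intervalIntegral.integral_add
    ((hf.fun_mul (continuous_cis_mul _)).intervalIntegrable _ _)
    ((hg.fun_mul (continuous_cis_mul _)).intervalIntegrable _ _)]
  congr 1; ext τ; ring

lemma co_const_mul (k : ℤ) (a : ℂ) (f : ℝ → ℂ) : co k (fun τ => a * f τ) = a * co k f := by
  unfold co
  rw [← intervalIntegral.integral_const_mul]
  congr 1; ext τ; ring

lemma co_cis_mul (k : ℤ) (f : ℝ → ℂ) : co (k + 1) (fun τ => cis τ * f τ) = co k f := by
  unfold co
  congr 1; ext τ
  have : cis (-(k : ℝ) * τ) = cis τ * cis (-((k + 1 : ℤ) : ℝ) * τ) := by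
    rw [← cis_add]; congr 1; push_cast; ring
  rw [this]; ring

lemma co_cis_neg_mul (k : ℤ) (f : ℝ → ℂ) : co k (fun τ => cis (-τ) * f τ) = co (k + 1) f := by
  unfold co
  congr 1; ext τ
  have : cis (-((k + 1 : ℤ) : ℝ) * τ) = cis (-τ) * cis (-(k : ℝ) * τ) := by
    rw [← cis_add]; congr 1; push_cast; ring
  rw [this]; ring

lemma co_conj (k : ℤ) (f : ℝ → ℂ) : co k (fun τ => conj (f τ)) = conj (co (-k) f) := by
  unfold co
  rw [intervalIntegral.integral_of_le (by positivity), intervalIntegral.integral_of_le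
    (by positivity), ← integral_conj]
  congr 1; ext τ
  rw [map_mul, cis_conj]
  congr 2; push_cast; ring

lemma co_deriv (k : ℤ) {f f' : ℝ → ℂ} (hf : ∀ τ, HasDerivAt f (f' τ) τ) (hf' : Continuous f')
    (hper : f (2 * π) = f 0) : co k f' = I * k * co k f := by
  have hfc : Continuous f := continuous_iff_continuousAt.mpr fun τ => (hf τ).continuousAt
  have h1 := intervalIntegral.integral_eq_sub_of_hasDerivAt (a := 0) (b := 2 * π)
    (f := fun τ => f τ * cis (-k * τ))
    (f' := fun τ => f' τ * cis (-k * τ) + (-(I * k) * f τ) * cis (-k * τ))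
    (fun τ _ => ((hf τ).mul (hasDerivAt_cis (-k) τ)).congr_deriv (by push_cast; ring))
    (((hf'.mul (continuous_cis_mul _)).add
      ((continuous_const.mul hfc).mul (continuous_cis_mul _))).intervalIntegrable _ _)
  have h2 := cis_int (-k)
  push_cast at h2
  rw [h2, mul_zero, cis_zero, hper, sub_self] at h1
  have h3 := co_add k hf' (g := fun τ => -(I * k) * f τ) (continuous_const.mul hfc)
  rw [co_const_mul] at h3
  have h4 : co k (fun τ => f' τ + -(I * k) * f τ) = 0 := by
    rw [← h1]; unfold co; congr 1; ext τ; ring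
  rw [h4] at h3
  linear_combination -h3

lemma co_bound {f : ℝ → ℂ} (hf : Continuous f) : ∃ C : ℝ, ∀ k, ‖co k f‖ ≤ C := by
  obtain ⟨C, hC⟩ := (isCompact_uIcc (a := (0 : ℝ)) (b := 2 * π)).exists_bound_of_continuousOn
    hf.continuousOn
  refine ⟨C * |2 * π - 0|, fun k => ?_⟩
  refine intervalIntegral.norm_integral_le_of_norm_le_const fun τ hτ => ?_
  rw [norm_mul, norm_cis, mul_one]
  exact hC τ (uIoc_subset_uIcc hτ)

lemma co_unique {f : ℝ → ℂ} (hf : Continuous f) (hper : Function.Periodic f (2 * π))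
    (h : ∀ k, co k f = 0) (τ : ℝ) : f τ = 0 := by
  have : Fact (0 < 2 * π) := ⟨by positivity⟩
  let F : C(AddCircle (2 * π), ℂ) := ⟨hper.lift, hf.quotient_liftOn' _⟩
  have hF : ∀ x : ℝ, F (x : AddCircle (2 * π)) = f x := fun x => rfl
  have h0 : ∀ k, fourierCoeff F k = 0 := by
    intro k
    rw [fourierCoeff_eq_intervalIntegral F k 0, zero_add]
    have : ∫ x in (0 : ℝ)..(2 * π), (fourier (-k)) (x : AddCircle (2 * π)) • F x = co k f := by
      unfold co
      congr 1; ext x
      rw [hF, fourier_coe_apply, smul_eq_mul, mul_comm]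
      congr 1
      unfold cis
      congr 1
      have : (π : ℂ) ≠ 0 := by exact_mod_cast pi_ne_zero
      push_cast
      field_simp
    rw [this, h k, smul_zero]
  have h1 : Summable (fourierCoeff F) := by
    have : fourierCoeff F = 0 := funext h0
    rw [this]; exact summable_zero
  have h2 := has_pointwise_sum_fourier_series_of_summable h1 (τ : AddCircle (2 * π))
  simp only [h0, zero_smul] at h2
  rw [← hF]
  exact h2.unique hasSum_zero

noncomputable def qf (m : ℝ) (H : ℝ → ℂ) : ℝ → ℂ := fun τ => Complex.exp (-m * cis τ) * H τ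

lemma hasDerivAt_exp_cis (m τ : ℝ) : HasDerivAt (fun t => Complex.exp (-m * cis t))
    (Complex.exp (-m * cis τ) * (-m * (I * cis τ))) τ :=
  ((hasDerivAt_cis' τ).const_mul (-m : ℂ)).cexp

lemma continuous_exp_cis (m : ℝ) : Continuous (fun t => Complex.exp (-m * cis t)) :=
  continuous_iff_continuousAt.mpr fun τ => (hasDerivAt_exp_cis m τ).continuousAt

lemma Lin.recur {r : ℤ} {m c : ℝ} {H : ℝ → ℂ} (h : Lin r m c H) (hper : H (2 * π) = H 0) :
    (∀ k : ℤ, (k * (k + r) + c ^ 2) * co k (qf m H) +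
      m * ((k - 1) * co (k - 1) (qf m H) + (k + 1) * co (k + 1) (qf m H)) = 0) ∧
    ∃ C : ℝ, ∀ k : ℤ, ‖k * co k (qf m H)‖ ≤ C := by
  set v : ℝ → ℂ := fun τ => -c * cis (-r * τ) * Complex.exp (-m * cis τ) * conj (H τ) with hv
  have hHc := h.continuous
  have hvc : Continuous v :=
    ((continuous_const.mul (continuous_cis_mul _)).mul (continuous_exp_cis m)).mul
      (Complex.continuous_conj.comp hHc)
  have hqc : Continuous (qf m H) := (continuous_exp_cis m).mul hHc
  have hq : ∀ τ, HasDerivAt (qf m H) (I * v τ) τ := by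
    intro τ
    refine ((hasDerivAt_exp_cis m τ).mul (h τ)).congr_deriv ?_
    simp only [hv]; ring
  have hqper : qf m H (2 * π) = qf m H 0 := by
    simp only [qf, hper, cis_two_pi, cis_zero]
  have hb : ∀ k : ℤ, co k v = k * co k (qf m H) := by
    intro k
    have := co_deriv k hq (continuous_const.mul hvc) hqper
    rw [co_const_mul] at this
    apply mul_left_cancel₀ I_ne_zero
    rw [this]; ring
  have hv' : ∀ τ, HasDerivAt v (-I * r * v τ + (-I * m * (cis τ * v τ) +
      (-I * m * (cis (-τ) * v τ) + -I * c ^ 2 * qf m H τ))) τ := by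
    intro τ
    refine ((((hasDerivAt_cis (-r) τ).const_mul (-c : ℂ)).mul (hasDerivAt_exp_cis m τ)).mul
      (h τ).star).congr_deriv ?_
    simp only [hv, qf, star_sub, star_mul', RCLike.star_def, Complex.conj_I, cis_conj, conj_ofReal,
      Complex.conj_conj, Pi.mul_apply]
    have := cis_mul_neg (-r * τ)
    push_cast
    linear_combination (-I * c ^ 2 * Complex.exp (-m * cis τ) * H τ) * this
  have hvper : v (2 * π) = v 0 := by
    have := cis_int (-r)
    push_cast at this
    simp only [hv, hper, cis_two_pi, cis_zero, this, mul_zero]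
  have c1 : Continuous fun τ => -I * r * v τ := continuous_const.mul hvc
  have c2 : Continuous fun τ => -I * m * (cis τ * v τ) :=
    continuous_const.mul (continuous_cis.mul hvc)
  have c3 : Continuous fun τ => -I * m * (cis (-τ) * v τ) :=
    continuous_const.mul ((continuous_cis.comp continuous_neg).mul hvc)
  have c4 : Continuous fun τ => -I * c ^ 2 * qf m H τ := continuous_const.mul hqc
  constructor
  · intro k
    have h1 := co_deriv k hv' (c1.add (c2.add (c3.add c4))) hvper
    rw [co_add k c1 (c2.fun_add (c3.fun_add c4)), co_add k c2 (c3.fun_add c4), co_add k c3 c4,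
      co_const_mul, co_const_mul, co_const_mul, co_const_mul, co_cis_neg_mul] at h1
    have h2 := co_cis_mul (k - 1) v
    rw [sub_add_cancel] at h2
    rw [h2, hb, hb, hb] at h1
    apply mul_left_cancel₀ I_ne_zero
    push_cast at h1
    linear_combination -h1
  · obtain ⟨C, hC⟩ := co_bound hvc
    exact ⟨C, fun k => hb k ▸ hC k⟩

def Super (l : ℕ) (μ s : ℝ) : Prop := ∃ lam : ℕ → ℝ, (∀ k, 0 < lam k) ∧
  (∀ k : ℕ, μ * (k + 1) * (lam k + lam (k + 2)) ≤ ((k + 1) * (k + 1 + l) + s ^ 2) * lam (k + 1)) ∧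
  Tendsto lam atTop atTop

lemma Super.seq_zero {l : ℕ} {μ s : ℝ} (h : Super l μ s) (hμ : 0 < μ) {b : ℕ → ℝ}
    (hb : ∀ k, 0 ≤ b k) (hb0 : b 0 = 0) {C : ℝ} (hC : ∀ k, b k ≤ C)
    (hrec : ∀ k : ℕ, ((k + 1) * (k + 1 + l) + s ^ 2) * b (k + 1) ≤
      μ * (k + 1) * (b k + b (k + 2))) (j : ℕ) : b j = 0 := by
  obtain ⟨lam, hpos, hsup, hlim⟩ := h
  have hΔ : ∀ k, b k * lam (k + 1) ≤ b (k + 1) * lam k := by
    intro k
    induction k with
    | zero => rw [hb0, zero_mul]; exact mul_nonneg (hb _) (hpos _).le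
    | succ k ih =>
      have h1 := mul_le_mul_of_nonneg_right (hrec k) (hpos (k + 1)).le
      have h2 := mul_le_mul_of_nonneg_right (hsup k) (hb (k + 1))
      have h3 : μ * (k + 1) * ((lam k + lam (k + 2)) * b (k + 1)) ≤
          μ * (k + 1) * ((b k + b (k + 2)) * lam (k + 1)) := by nlinarith
      have h4 := le_of_mul_le_mul_left h3 (by positivity)
      nlinarith
  have hmono : Monotone (fun k => b k / lam k) := by
    refine monotone_nat_of_le_succ fun k => ?_
    rw [div_le_div_iff₀ (hpos _) (hpos _)]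
    exact hΔ k
  have hle : b j / lam j ≤ 0 := by
    refine ge_of_tendsto (hlim.const_div_atTop C) ?_
    filter_upwards [eventually_ge_atTop j] with k hk
    refine (hmono hk).trans ?_
    exact div_le_div_of_nonneg_right (hC k) (hpos k).le
  have := div_nonneg (hb j) (hpos j).le
  have h0 : b j / lam j = 0 := le_antisymm hle this
  exact (div_eq_zero_iff.mp h0).resolve_right (hpos j).ne'

lemma Lin.co_pos_zero {l : ℕ} {m c μ s : ℝ} {H : ℝ → ℂ} (h : Lin l m c H) (hper : H (2 * π) = H 0)
    (hS : Super l μ s) (hμ : 0 < μ) (hm : |m| ≤ μ) (hc : c ^ 2 = s ^ 2) (k : ℤ) (hk : 0 < k) :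
    co k (qf m H) = 0 := by
  obtain ⟨hrec, C, hC⟩ := Lin.recur (r := (l : ℤ)) (by simpa using h) hper
  have key := hS.seq_zero hμ (b := fun n : ℕ => ‖((n : ℤ) : ℂ) * co n (qf m H)‖) (C := C)
    (fun _ => norm_nonneg _) (by simp) (fun n => hC n) (by
      intro n
      have h1 := hrec (n + 1)
      have h2 : ((((n + 1) * (n + 1 + l) + s ^ 2 : ℝ)) : ℂ) *
          ((((n + 1 : ℕ) : ℤ) : ℂ) * co ((n + 1 : ℕ) : ℤ) (qf m H)) =
          -(((m * (n + 1) : ℝ)) : ℂ) * (((n : ℤ) : ℂ) * co (n : ℤ) (qf m H) +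
            (((n + 2 : ℕ) : ℤ) : ℂ) * co ((n + 2 : ℕ) : ℤ) (qf m H)) := by
        have e1 : ((n : ℤ) + 1 - 1) = n := by ring
        have e2 : ((n : ℤ) + 1 + 1) = ((n + 2 : ℕ) : ℤ) := by push_cast; ring
        have e3 : ((n : ℤ) + 1) = ((n + 1 : ℕ) : ℤ) := by push_cast; ring
        rw [e1, e2, e3] at h1
        rw [← hc]
        push_cast at h1 ⊢
        linear_combination (n + 1 : ℂ) * h1
      have h3 := congrArg norm h2
      rw [norm_mul, norm_mul (-_), norm_neg, Complex.norm_real, Complex.norm_real,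
        Real.norm_of_nonneg (by positivity), Real.norm_eq_abs, abs_mul,
        abs_of_nonneg (by positivity : (0 : ℝ) ≤ n + 1)] at h3
      rw [h3]
      gcongr
      exact norm_add_le _ _)
  obtain ⟨n, rfl⟩ := Int.eq_ofNat_of_zero_le hk.le
  have := key n
  rw [norm_eq_zero, mul_eq_zero] at this
  exact this.resolve_left (by exact_mod_cast hk.ne')

lemma Lin.flip {β μ c : ℝ} {E : ℝ → ℂ} (h : Lin β μ c E) :
    Lin (-β) (-μ) (-c) (fun τ => conj (E τ) * (Real.exp (-(2 * μ) * Real.cos τ) : ℝ)) := by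
  intro τ
  have h1 := ((Real.hasDerivAt_cos τ).const_mul (-(2 * μ))).exp.ofReal_comp
  refine ((h τ).star.mul h1).congr_deriv ?_
  simp only [star_sub, star_mul', RCLike.star_def, Complex.conj_I, cis_conj, conj_ofReal,
    Complex.conj_conj, map_mul, neg_mul, neg_neg]
  set ρ := Real.exp (-(2 * μ * Real.cos τ))
  rw [cis_eq τ, cis_eq (-τ), Real.cos_neg, Real.sin_neg]
  push_cast
  linear_combination (2 * μ * Complex.sin τ * conj (E τ) * ρ) * I_mul_I

lemma Lin.Dop_iter_zero {l : ℕ} {μ c μ' s : ℝ} {E : ℝ → ℂ} (h : Lin (-(l : ℝ)) μ c E)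
    (hper : E (2 * π) = E 0) (hS : Super l μ' s) (hμ' : 0 < μ') (hm : |μ| ≤ μ')
    (hc : c ^ 2 = s ^ 2) (hc0 : c ≠ 0) : Dop^[l] E = 0 := by
  have hEper : Function.Periodic E (2 * π) :=
    Lin.periodic (r := -(l : ℤ)) (by simpa using h) hper
  have hDper : ∀ j, Function.Periodic (Dop^[j] E) (2 * π) := by
    intro j τ
    have := Dop_iter_shift E j
    rw [show (fun τ => E (τ + 2 * π)) = E from funext hEper] at this
    exact (congrFun this τ).symm
  have hqper : ∀ j, Function.Periodic (qf μ (Dop^[j] E)) (2 * π) := by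
    intro j τ
    simp only [qf, hDper j τ, cis_add_two_pi]
  have hqc : ∀ j, Continuous (qf μ (Dop^[j] E)) := fun j =>
    (continuous_exp_cis μ).mul (contDiff_Dop_iter h.contDiff j).continuous
  have hneg : ∀ j, ∀ k : ℤ, k < 0 → co k (qf μ (Dop^[j] E)) = 0 := by
    intro j
    induction j with
    | zero =>
      intro k hk
      have h1 := h.flip
      rw [neg_neg] at h1
      have h2 := h1.co_pos_zero (by simp [hper]) hS hμ' (by simpa using hm) (by simpa using hc)
        (-k) (by omega)
      have h3 : qf μ (Dop^[0] E) = fun τ => conj (qf (-μ) (fun τ => conj (E τ) *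
          (Real.exp (-(2 * μ) * Real.cos τ) : ℝ)) τ) := by
        ext τ
        simp only [qf, Function.iterate_zero, id, map_mul, conj_ofReal, Complex.conj_conj,
          ← Complex.exp_conj, map_neg, cis_conj]
        rw [Complex.ofReal_exp, mul_comm (E τ), ← mul_assoc, ← Complex.exp_add]
        congr 2
        rw [cis_eq τ, cis_eq (-τ), Real.cos_neg, Real.sin_neg]
        push_cast; ring
      rw [h3, co_conj, h2, map_zero]
    | succ j ih =>
      intro k hk
      have hd : ∀ τ, HasDerivAt (qf μ (Dop^[j] E)) (I * (cis τ * qf μ (Dop^[j + 1] E) τ) +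
          -I * μ * (cis τ * qf μ (Dop^[j] E) τ)) τ := by
        intro τ
        refine ((hasDerivAt_exp_cis μ τ).mul
          (hasDerivAt_of_smooth (contDiff_Dop_iter h.contDiff j) τ)).congr_deriv ?_
        simp only [qf, Function.iterate_succ_apply']; ring
      have c1 : Continuous fun τ => I * (cis τ * qf μ (Dop^[j + 1] E) τ) :=
        continuous_const.mul (continuous_cis.mul (hqc _))
      have c2 : Continuous fun τ => -I * μ * (cis τ * qf μ (Dop^[j] E) τ) :=
        continuous_const.mul (continuous_cis.mul (hqc _))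
      have h1 := co_deriv (k + 1) hd (c1.add c2) (by simpa using hqper j 0)
      rw [co_add _ c1 c2, co_const_mul, co_const_mul, co_cis_mul, co_cis_mul, ih k hk] at h1
      have h2 : ((k + 1 : ℤ) : ℂ) * co (k + 1) (qf μ (Dop^[j] E)) = 0 := by
        rcases (show k + 1 = 0 ∨ k + 1 < 0 by omega) with h | h
        · rw [h]; simp
        · rw [ih _ h, mul_zero]
      apply mul_left_cancel₀ I_ne_zero
      linear_combination h1 + I * h2
  have hW := h.W
  have hWper : Dop^[l] E (2 * π) = Dop^[l] E 0 := by simpa using hDper l 0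
  have hc' : ((-1) ^ l * c) ^ 2 = s ^ 2 := by
    rw [mul_pow, ← pow_mul, mul_comm l 2, pow_mul, hc]; simp
  have hpos := hW.co_pos_zero hWper hS hμ' hm hc'
  have hzero : co 0 (qf μ (Dop^[l] E)) = 0 := by
    have h1 := (Lin.recur (r := (l : ℤ)) (by simpa using hW) hWper).1 0
    rw [hneg l (0 - 1) (by norm_num), hpos (0 + 1) (by norm_num)] at h1
    simp only [Int.cast_zero, zero_mul, zero_add, mul_zero, add_zero, mul_eq_zero] at h1
    refine h1.resolve_left (pow_ne_zero _ ?_)
    rw [Complex.ofReal_ne_zero]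
    exact mul_ne_zero (pow_ne_zero _ (by norm_num)) hc0
  ext τ
  have := co_unique (hqc l) (hqper l) (fun k => by
    rcases lt_trichotomy k 0 with hk | hk | hk
    · exact hneg l k hk
    · rw [hk]; exact hzero
    · exact hpos k hk) τ
  simp only [qf, mul_eq_zero, Complex.exp_ne_zero, false_or] at this
  exact this

end Pool.Agent.Lib.MP_42e615_an
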