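import Mathlib

set_option autoImplicit false

open Real Set Filter Topology

namespace Pool.Agent.Lib.MP_42e615_an

/-- The rotation number of the Josephson flow with parameters `(B, A)` equals `ρ`: every solution
of the equation in the time `τ = ω t` satisfies `φ(2πk)/(2πk) → ρ`. -/
def HasRotationNumber (ω B A ρ : ℝ) : Prop :=
  ∀ φ : ℝ → ℝ, (∀ τ : ℝ, HasDerivAt φ (-sin (φ τ) / ω + B / ω + A / ω * cos τ) τ) →
    Tendsto (fun k : ℕ => φ (2 * π * k) / (2 * π * k)) atTop (𝓝 ρ)

/-- The level set of the rotation number. -/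
def lockArea (ω : ℝ) (r : ℤ) : Set (ℝ × ℝ) := {p | HasRotationNumber ω p.1 p.2 r}

/-- A constriction: a point off the `B`-axis that is the whole horizontal slice of the area. -/
def IsConstriction (L : Set (ℝ × ℝ)) (p : ℝ × ℝ) : Prop :=
  p.2 ≠ 0 ∧ p ∈ L ∧ ∀ B : ℝ, (B, p.2) ∈ L → B = p.1

end Pool.Agent.Lib.MP_42e615_an
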