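import Pool.Agent.Lib.MP_42e615_an.Main
import Pool.Agent.Lib.MP_42e615_an.HedgeDefs

set_option autoImplicit false

open Real Set Filter Topology

namespace Pool.Agent.Lib.MP_42e615_an

lemma Lk_of_tendsto_nat {s β μ : ℝ} {r : ℤ} {φ : ℝ → ℝ} (hφ : IsSol s β μ φ)
    (hlim' : Tendsto ((fun τ => φ τ / τ) ∘ fun n : ℕ => (n : ℝ) * (2 * π)) atTop (𝓝 (r : ℝ))) : Lk s β μ r := by
  by_contra hno
  have hstep : ∀ n : ℕ, φ ((n + 1 : ℕ) * (2 * π)) - φ (n * (2 * π)) - r * (2 * π) =
      Ph s β μ r (φ (n * (2 * π))) := by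
    intro n
    have := (hφ.iter n).Ph_eq r
    simp only [zero_add] at this
    rw [this]
    congr 3
    push_cast; ring
  have hT : Tendsto (fun n : ℕ => (n : ℝ) * (2 * π)) atTop atTop :=
    tendsto_natCast_atTop_atTop.atTop_mul_const (by positivity)
  have hinv : Tendsto (fun n : ℕ => φ 0 / ((n : ℝ) * (2 * π))) atTop (𝓝 0) :=
    tendsto_const_nhds.div_atTop hT
  have hne : (Icc (0 : ℝ) (0 + 2 * π)).Nonempty := ⟨0, le_rfl, by positivity⟩
  have hc := continuous_Ph' s β μ r
  rcases lt_trichotomy (Ph s β μ r 0) 0 with h0 | h0 | h0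
  · obtain ⟨y, -, hy⟩ := isCompact_Icc.exists_isMaxOn hne hc.continuousOn
    have hneg : Ph s β μ r y < 0 := by
      by_contra hc'
      exact hno (Lk_of_le h0.le (not_lt.mp hc'))
    have hall : ∀ x, Ph s β μ r x ≤ Ph s β μ r y := by
      intro x
      obtain ⟨k, hk⟩ := exists_shift 0 x
      rw [← Ph_add_int s β μ r x k]
      exact hy (Ico_subset_Icc_self hk)
    set δ := Ph s β μ r y
    have hn : ∀ n : ℕ, φ (n * (2 * π)) ≤ φ 0 + n * (r * (2 * π) + δ) := by
      intro n
      induction n with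
      | zero => simp
      | succ n ih =>
        have := hstep n
        have h2 := hall (φ (n * (2 * π)))
        push_cast at this ⊢
        linarith
    have hle : (r : ℝ) ≤ 0 + (r + δ / (2 * π)) := by
      refine le_of_tendsto_of_tendsto hlim' (hinv.add_const _) ?_
      filter_upwards [eventually_gt_atTop 0] with n hn0
      have hn0' : (0 : ℝ) < n := by exact_mod_cast hn0
      simp only [Function.comp]
      rw [div_le_iff₀ (by positivity)]
      have : (φ 0 / (n * (2 * π)) + (r + δ / (2 * π))) * (n * (2 * π)) =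
          φ 0 + n * (r * (2 * π) + δ) := by field_simp
      rw [this]; exact hn n
    have : δ / (2 * π) < 0 := div_neg_of_neg_of_pos hneg (by positivity)
    linarith
  · exact hno ⟨0, h0⟩
  · obtain ⟨y, -, hy⟩ := isCompact_Icc.exists_isMinOn hne hc.continuousOn
    have hpos : 0 < Ph s β μ r y := by
      by_contra hc'
      exact hno (Lk_of_le (not_lt.mp hc') h0.le)
    have hall : ∀ x, Ph s β μ r y ≤ Ph s β μ r x := by
      intro x
      obtain ⟨k, hk⟩ := exists_shift 0 x
      rw [← Ph_add_int s β μ r x k]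
      exact hy (Ico_subset_Icc_self hk)
    set δ := Ph s β μ r y
    have hn : ∀ n : ℕ, φ 0 + n * (r * (2 * π) + δ) ≤ φ (n * (2 * π)) := by
      intro n
      induction n with
      | zero => simp
      | succ n ih =>
        have := hstep n
        have h2 := hall (φ (n * (2 * π)))
        push_cast at this ⊢
        linarith
    have hle : 0 + (r + δ / (2 * π)) ≤ (r : ℝ) := by
      refine le_of_tendsto_of_tendsto (hinv.add_const _) hlim' ?_
      filter_upwards [eventually_gt_atTop 0] with n hn0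
      have hn0' : (0 : ℝ) < n := by exact_mod_cast hn0
      simp only [Function.comp]
      rw [le_div_iff₀ (by positivity)]
      have : (φ 0 / (n * (2 * π)) + (r + δ / (2 * π))) * (n * (2 * π)) =
          φ 0 + n * (r * (2 * π) + δ) := by field_simp
      rw [this]; exact hn n
    have : 0 < δ / (2 * π) := div_pos hpos (by positivity)
    linarith

lemma Lk.tendsto_all {s β μ : ℝ} {r : ℤ} (h : Lk s β μ r) {φ : ℝ → ℝ} (hφ : IsSol s β μ φ) :
    Tendsto (fun k : ℕ => φ (2 * π * k) / (2 * π * k)) atTop (𝓝 (r : ℝ)) := by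
  obtain ⟨ψ, hψ, hlim⟩ := h.tendsto
  obtain ⟨m, hm⟩ := exists_nat_gt (|φ 0 - ψ 0| / (2 * π))
  rw [div_lt_iff₀ (by positivity), _root_.abs_lt] at hm
  have h1 := fun t => (hψ.add_int (-(m : ℤ))).lt_of_lt hφ (t₀ := 0) (by push_cast; linarith) t
  have h2 := fun t => hφ.lt_of_lt (hψ.add_int (m : ℤ)) (t₀ := 0) (by push_cast; linarith) t
  have hT : Tendsto (fun k : ℕ => 2 * π * (k : ℝ)) atTop atTop :=
    tendsto_natCast_atTop_atTop.const_mul_atTop (by positivity)
  have h0 : Tendsto (fun k : ℕ => (φ (2 * π * k) - ψ (2 * π * k)) / (2 * π * k)) atTop (𝓝 0) := by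
    refine squeeze_zero_norm' (a := fun k : ℕ => m * (2 * π) / (2 * π * k)) ?_
      (tendsto_const_nhds.div_atTop hT)
    filter_upwards [eventually_gt_atTop 0] with k hk
    have hk' : (0 : ℝ) < 2 * π * k := by positivity
    rw [norm_div, Real.norm_of_nonneg hk'.le]
    gcongr
    have a1 := h1 (2 * π * k)
    have a2 := h2 (2 * π * k)
    push_cast at a1 a2
    rw [Real.norm_eq_abs, abs_le]
    constructor <;> linarith
  have h3 := h0.add (hlim.comp hT)
  rw [zero_add] at h3
  refine h3.congr fun k => ?_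
  simp only [Function.comp]
  ring

lemma lockArea_eq {ω : ℝ} (hω : 0 < ω) (r : ℤ) : lockArea ω r = LL ω r := by
  ext p
  rw [mem_LL hω]
  have key : ∀ φ : ℝ → ℝ, IsSol (1 / (2 * ω)) (p.1 / ω) (p.2 / (2 * ω)) φ ↔
      ∀ τ : ℝ, HasDerivAt φ (-sin (φ τ) / ω + p.1 / ω + p.2 / ω * cos τ) τ := by
    intro φ
    refine forall_congr' fun τ => ?_
    have : vf (1 / (2 * ω)) (p.1 / ω) (p.2 / (2 * ω)) τ (φ τ) =
        -sin (φ τ) / ω + p.1 / ω + p.2 / ω * cos τ := by
      unfold vf; field_simp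
    rw [this]
  constructor
  · intro h
    obtain ⟨φ, -, hφ⟩ := exists_sol (1 / (2 * ω)) (p.1 / ω) (p.2 / (2 * ω)) 0
    refine Lk_of_tendsto_nat hφ ((h φ ((key φ).mp hφ)).congr fun k => ?_)
    simp only [Function.comp, mul_comm (k : ℝ)]
  · intro h φ hφ
    exact h.tendsto_all ((key φ).mpr hφ)

theorem hedge {ω : ℝ} (hω : 0 < ω) {r : ℤ} (hr : r ≠ 0) : ∃ a : ℝ,
    IsGreatest {A : ℝ | (r * ω, A) ∈ frontier (lockArea ω r) ∧
      ¬ IsConstriction (lockArea ω r) (r * ω, A)} a ∧
    ∀ A : ℝ, 0 ≤ A → (HasRotationNumber ω (r * ω) A r ↔ a ≤ A) := by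
  obtain ⟨a, h1, h2⟩ := concl hω hr
  rw [← lockArea_eq hω, mul_comm ω] at h1 h2
  refine ⟨a, ?_, fun A hA => ?_⟩
  · have e : ∀ A : ℝ, IsConstriction (lockArea ω r) (r * ω, A) ↔
        (A ≠ 0 ∧ {p ∈ lockArea ω r | p.2 = A} = {((r : ℝ) * ω, A)}) := by
      intro A
      unfold IsConstriction
      refine and_congr Iff.rfl ⟨fun h => ?_, fun h => ⟨?_, fun B hB => ?_⟩⟩
      · ext ⟨B, A'⟩
        simp only [mem_ofPred_eq, mem_singleton_iff, Prod.mk.injEq]
        constructor
        · rintro ⟨h3, rfl⟩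
          exact ⟨h.2 B h3, rfl⟩
        · rintro ⟨rfl, rfl⟩
          exact ⟨h.1, rfl⟩
      · have : ((r : ℝ) * ω, A) ∈ {p ∈ lockArea ω r | p.2 = A} := by rw [h]; rfl
        exact this.1
      · have : (B, A) ∈ {p ∈ lockArea ω r | p.2 = A} := ⟨hB, rfl⟩
        rw [h] at this
        exact congrArg Prod.fst this
    simp only [e]
    exact h1
  · have := Set.ext_iff.mp h2 A
    simp only [mem_ofPred_eq, mem_Ici, hA, true_and] at this
    exact this

end Pool.Agent.Lib.MP_42e615_an
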