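import Pool.Agent.Lib.MP_42e615_an.Lock

set_option autoImplicit false

open Real Set Filter Topology Complex ComplexConjugate

namespace Pool.Agent.Lib.MP_42e615_an

noncomputable def cis (x : ℝ) : ℂ := Complex.exp (x * I)

lemma cis_add (x y : ℝ) : cis (x + y) = cis x * cis y := by
  unfold cis; rw [← Complex.exp_add]; congr 1; push_cast; ring

lemma cis_zero : cis 0 = 1 := by simp [cis]

lemma cis_conj (x : ℝ) : conj (cis x) = cis (-x) := by
  unfold cis; rw [← Complex.exp_conj]; congr 1; simp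

lemma cis_mul_neg (x : ℝ) : cis x * cis (-x) = 1 := by rw [← cis_add]; simp [cis_zero]

lemma norm_cis (x : ℝ) : ‖cis x‖ = 1 := Complex.norm_exp_ofReal_mul_I x

lemma cis_ne_zero (x : ℝ) : cis x ≠ 0 := Complex.exp_ne_zero _

lemma cis_eq (x : ℝ) : cis x = Real.cos x + Real.sin x * I := by
  unfold cis; rw [Complex.exp_mul_I]; simp

lemma cis_re (x : ℝ) : (cis x).re = Real.cos x := Complex.exp_ofReal_mul_I_re x

lemma cis_im (x : ℝ) : (cis x).im = Real.sin x := Complex.exp_ofReal_mul_I_im x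

lemma cis_int (k : ℤ) : cis (k * (2 * π)) = 1 := by
  have := Real.sin_add_int_mul_two_pi 0 k
  rw [zero_add] at this
  rw [cis_eq, Real.cos_int_mul_two_pi, this]; simp

lemma cis_pi : cis π = -1 := by rw [cis_eq]; simp

lemma cis_pi_div_two : cis (π / 2) = I := by rw [cis_eq]; simp

lemma cis_two_pi : cis (2 * π) = 1 := by simpa using cis_int 1

lemma cis_add_two_pi (x : ℝ) : cis (x + 2 * π) = cis x := by rw [cis_add, cis_two_pi, mul_one]

lemma cis_pow (x : ℝ) (n : ℕ) : cis x ^ n = cis (n * x) := by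
  unfold cis; rw [← Complex.exp_nat_mul]; congr 1; push_cast; ring

lemma hasDerivAt_cis (a τ : ℝ) : HasDerivAt (fun t => cis (a * t)) (a * I * cis (a * τ)) τ := by
  have h1 : HasDerivAt (fun t : ℝ => ((a * t : ℝ) : ℂ) * I) (a * I) τ := by
    have := (((hasDerivAt_id τ).const_mul a).ofReal_comp).mul_const I
    simpa using this
  have := h1.cexp
  unfold cis
  exact this.congr_deriv (by ring)

lemma hasDerivAt_cis' (τ : ℝ) : HasDerivAt cis (I * cis τ) τ := by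
  simpa using hasDerivAt_cis 1 τ

lemma continuous_cis : Continuous cis := by unfold cis; fun_prop

def Lin (β μ c : ℝ) (H : ℝ → ℂ) : Prop :=
  ∀ τ, HasDerivAt H (I * μ * cis τ * H τ - I * c * cis (-β * τ) * conj (H τ)) τ

lemma Lin.differentiable {β μ c : ℝ} {H : ℝ → ℂ} (h : Lin β μ c H) : Differentiable ℝ H :=
  fun τ => (h τ).differentiableAt

lemma Lin.continuous {β μ c : ℝ} {H : ℝ → ℂ} (h : Lin β μ c H) : Continuous H :=
  h.differentiable.continuous

lemma Lin.unique {β μ c : ℝ} {H G : ℝ → ℂ} (h : Lin β μ c H) (h' : Lin β μ c G) {t₀ : ℝ}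
    (h0 : H t₀ = G t₀) : H = G := by
  refine ODE_solution_unique_univ
    (v := fun τ x => I * μ * cis τ * x - I * c * cis (-β * τ) * conj x) (s := fun _ => univ)
    (K := Real.nnabs μ + Real.nnabs c) (fun t => LipschitzWith.lipschitzOnWith ?_)
    (fun t => ⟨h t, trivial⟩) (fun t => ⟨h' t, trivial⟩) h0
  refine LipschitzWith.of_dist_le_mul fun x y => ?_
  rw [dist_eq_norm, dist_eq_norm]
  have : I * μ * cis t * x - I * c * cis (-β * t) * conj x -
      (I * μ * cis t * y - I * c * cis (-β * t) * conj y) =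
      I * μ * cis t * (x - y) - I * c * cis (-β * t) * conj (x - y) := by
    rw [map_sub]; ring
  rw [this]
  refine (norm_sub_le _ _).trans (le_of_eq ?_)
  simp only [norm_mul, norm_I, norm_cis, Complex.norm_real, Complex.norm_conj, Real.norm_eq_abs,
    NNReal.coe_add, Real.coe_nnabs]
  ring

lemma Lin.zero (β μ c : ℝ) : Lin β μ c (fun _ => 0) := by
  intro τ; simpa using hasDerivAt_const τ (0 : ℂ)

lemma Lin.add {β μ c : ℝ} {H G : ℝ → ℂ} (h : Lin β μ c H) (h' : Lin β μ c G) :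
    Lin β μ c (fun τ => H τ + G τ) := by
  intro τ
  refine ((h τ).add (h' τ)).congr_deriv ?_
  rw [map_add]; ring

lemma Lin.smul {β μ c : ℝ} {H : ℝ → ℂ} (h : Lin β μ c H) (t : ℝ) :
    Lin β μ c (fun τ => t * H τ) := by
  intro τ
  refine ((h τ).const_mul (t : ℂ)).congr_deriv ?_
  rw [map_mul, Complex.conj_ofReal]; ring

lemma Lin.mul_I {β μ c : ℝ} {H : ℝ → ℂ} (h : Lin β μ c H) :
    Lin β μ (-c) (fun τ => I * H τ) := by
  intro τ
  refine ((h τ).const_mul I).congr_deriv ?_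
  rw [map_mul, Complex.conj_I]; push_cast; ring

lemma Lin.shift {r : ℤ} {μ c : ℝ} {H : ℝ → ℂ} (h : Lin r μ c H) :
    Lin r μ c (fun τ => H (τ + 2 * π)) := by
  intro τ
  refine ((h (τ + 2 * π)).comp_add_const τ (2 * π)).congr_deriv ?_
  have : cis (-(r : ℝ) * (τ + 2 * π)) = cis (-r * τ) := by
    rw [mul_add, cis_add]
    have := cis_int (-r)
    push_cast at this
    rw [this, mul_one]
  rw [this, cis_add_two_pi]

lemma Lin.periodic {r : ℤ} {μ c : ℝ} {H : ℝ → ℂ} (h : Lin r μ c H) (h0 : H (2 * π) = H 0) :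
    Function.Periodic H (2 * π) := by
  have := h.shift.unique h (t₀ := 0) (by simpa using h0)
  exact fun τ => congrFun this τ

/-- logarithm of the lift of a solution of the nonlinear equation -/
noncomputable def lg (β μ c : ℝ) (φ : ℝ → ℝ) (τ : ℝ) : ℂ :=
  ((μ * Real.cos τ + c * ∫ u in (0 : ℝ)..τ, Real.cos (φ u) : ℝ) : ℂ) +
    ((φ τ / 2 - β * τ / 2 - π / 4 : ℝ) : ℂ) * I

lemma IsSol.hasDerivAt_lg {β μ c : ℝ} {φ : ℝ → ℝ} (h : IsSol c β μ φ) (τ : ℝ) :
    HasDerivAt (lg β μ c φ) (I * μ * cis τ + c * cis (-φ τ)) τ := by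
  have hc : Continuous (fun u => Real.cos (φ u)) := Real.continuous_cos.comp h.continuous
  have h1 : HasDerivAt (fun t => ∫ u in (0 : ℝ)..t, Real.cos (φ u)) (Real.cos (φ τ)) τ :=
    (hc.integral_hasStrictDerivAt 0 τ).hasDerivAt
  have h2 := (((Real.hasDerivAt_cos τ).const_mul μ).add (h1.const_mul c)).ofReal_comp
  have h3 := (((((h τ).div_const 2).sub (((hasDerivAt_id τ).const_mul β).div_const 2)).sub_const
    (π / 4)).ofReal_comp).mul_const I
  refine (h2.add h3).congr_deriv ?_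
  rw [cis_eq, cis_eq]
  simp only [vf, Real.cos_neg, Real.sin_neg]
  push_cast
  linear_combination (-(μ : ℂ) * Complex.sin τ) * I_mul_I

lemma exp_lg (β μ c : ℝ) (φ : ℝ → ℝ) (τ : ℝ) : Complex.exp (lg β μ c φ τ) =
    (Real.exp (μ * Real.cos τ + c * ∫ u in (0 : ℝ)..τ, Real.cos (φ u)) : ℝ) *
      cis (φ τ / 2 - β * τ / 2 - π / 4) := by
  unfold lg cis
  rw [Complex.exp_add, Complex.ofReal_exp]

lemma IsSol.lin {β μ c : ℝ} {φ : ℝ → ℝ} (h : IsSol c β μ φ) :
    Lin β μ c (fun τ => Complex.exp (lg β μ c φ τ)) := by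
  intro τ
  refine (h.hasDerivAt_lg τ).cexp.congr_deriv ?_
  beta_reduce
  rw [exp_lg, map_mul, Complex.conj_ofReal, cis_conj]
  set ρ : ℂ := ((Real.exp (μ * Real.cos τ + c * ∫ u in (0 : ℝ)..τ, Real.cos (φ u)) : ℝ) : ℂ)
  set θ := φ τ / 2 - β * τ / 2 - π / 4 with hθ
  have : cis θ * cis (-φ τ) = -I * cis (-β * τ) * cis (-θ) := by
    have h1 : -I = cis (-(π / 2)) := by rw [← cis_conj, cis_pi_div_two, Complex.conj_I]
    rw [h1, ← cis_add, ← cis_add, ← cis_add]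
    congr 1; rw [hθ]; ring
  linear_combination (ρ * c) * this

lemma exp_lg_zero (β μ c : ℝ) (φ : ℝ → ℝ) :
    Complex.exp (lg β μ c φ 0) = (Real.exp μ : ℝ) * cis (φ 0 / 2 - π / 4) := by
  rw [exp_lg]; simp

lemma exists_lin_aux (β μ c : ℝ) {x : ℂ} (hx : x ≠ 0) : ∃ (t : ℝ) (φ : ℝ → ℝ), 0 < t ∧
    IsSol c β μ φ ∧ t * Complex.exp (lg β μ c φ 0) = x := by
  refine ⟨‖x‖ * Real.exp (-μ), flow c β μ (2 * (arg x + π / 4)), by positivity,
    flow_sol _ _ _ _, ?_⟩
  rw [exp_lg_zero, flow_zero]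
  have h1 : 2 * (arg x + π / 4) / 2 - π / 4 = arg x := by ring
  rw [h1, ← mul_assoc, ← Complex.ofReal_mul, mul_assoc, ← Real.exp_add]
  simp only [neg_add_cancel, Real.exp_zero, mul_one]
  exact Complex.norm_mul_exp_arg_mul_I x

lemma exists_lin (β μ c : ℝ) (x : ℂ) : ∃ H, Lin β μ c H ∧ H 0 = x := by
  by_cases hx : x = 0
  · exact ⟨_, Lin.zero β μ c, hx.symm⟩
  · obtain ⟨t, φ, -, hφ, h⟩ := exists_lin_aux β μ c hx
    exact ⟨_, hφ.lin.smul t, h⟩

lemma Lin.repr {β μ c : ℝ} {H : ℝ → ℂ} (h : Lin β μ c H) (h0 : H 0 ≠ 0) :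
    ∃ (t : ℝ) (φ : ℝ → ℝ), 0 < t ∧ IsSol c β μ φ ∧
      H = fun τ => t * Complex.exp (lg β μ c φ τ) := by
  obtain ⟨t, φ, ht, hφ, h1⟩ := exists_lin_aux β μ c h0
  exact ⟨t, φ, ht, hφ, h.unique (hφ.lin.smul t) (t₀ := 0) h1.symm⟩

lemma Lin.wronsk {β μ c : ℝ} {H G : ℝ → ℂ} (h : Lin β μ c H) (h' : Lin β μ c G) (τ : ℝ) :
    (conj (H τ) * G τ).im * Real.exp (-(2 * μ) * Real.cos τ) =
      (conj (H 0) * G 0).im * Real.exp (-(2 * μ)) := by
  have hd : ∀ t, HasDerivAt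
      (fun t => (conj (H t) * G t).im * Real.exp (-(2 * μ) * Real.cos t)) 0 t := by
    intro t
    have h1 := ((h t).star.mul (h' t))
    have h2 : HasDerivAt (fun t => (star (H t) * G t).im) _ t :=
      Complex.imCLM.hasFDerivAt.comp_hasDerivAt t h1
    have h3 := h2.mul ((Real.hasDerivAt_cos t).const_mul (-(2 * μ))).exp
    refine h3.congr_deriv ?_
    simp [cis_re, cis_im]
    ring
  have := is_const_of_deriv_eq_zero (fun t => (hd t).differentiableAt) (fun t => (hd t).deriv) τ 0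
  simpa using this

lemma exists_rep (β μ c T : ℝ) : ∃ p q : ℂ,
    (∀ H, Lin β μ c H → H T = p * H 0 + q * conj (H 0)) ∧
    (normSq p - normSq q) * Real.exp (-(2 * μ) * Real.cos T) = Real.exp (-(2 * μ)) := by
  obtain ⟨H₁, h₁, h10⟩ := exists_lin β μ c 1
  obtain ⟨H₂, h₂, h20⟩ := exists_lin β μ c I
  refine ⟨(H₁ T - I * H₂ T) / 2, (H₁ T + I * H₂ T) / 2, fun H h => ?_, ?_⟩
  · have := h.unique ((h₁.smul (H 0).re).add (h₂.smul (H 0).im)) (t₀ := 0) (by
      simp [h10, h20])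
    rw [congrFun this T]
    apply Complex.ext <;> simp <;> ring
  · have := h₁.wronsk h₂ T
    rw [h10, h20] at this
    simp only [map_one, one_mul, I_im] at this
    rw [← this]
    congr 1
    simp [normSq_apply]
    ring

def IsMono (β μ c : ℝ) (p q : ℂ) : Prop :=
  (∀ H, Lin β μ c H → H (2 * π) = p * H 0 + q * conj (H 0)) ∧ normSq p - normSq q = 1

lemma exists_mono (β μ c : ℝ) : ∃ p q, IsMono β μ c p q := by
  obtain ⟨p, q, h1, h2⟩ := exists_rep β μ c (2 * π)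
  refine ⟨p, q, h1, ?_⟩
  rw [Real.cos_two_pi, mul_one] at h2
  have := Real.exp_pos (-(2 * μ))
  field_simp at h2
  linarith

lemma IsMono.formula {r : ℤ} {μ c : ℝ} {p q : ℂ} (h : IsMono r μ c p q) (y : ℝ) :
    ∃ R : ℝ, 0 < R ∧ R * cis (Ph c r μ r y / 2) = p + I * q * cis (-y) ∧
      ∃ H, Lin r μ c H ∧ H 0 ≠ 0 ∧ H (2 * π) = R * cis (Ph c r μ r y / 2) * H 0 := by
  set φ := flow c r μ y
  have hφ : IsSol c r μ φ := flow_sol _ _ _ _
  have h0 : φ 0 = y := flow_zero _ _ _ _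
  have hP := hφ.Ph_eq r
  rw [h0] at hP
  set R := Real.exp (c * ∫ u in (0 : ℝ)..(2 * π), Real.cos (φ u)) with hR
  have hE : Complex.exp (lg r μ c φ (2 * π)) =
      R * cis (Ph c r μ r y / 2) * Complex.exp (lg r μ c φ 0) := by
    rw [exp_lg_zero, exp_lg, Real.cos_two_pi, mul_one, Real.exp_add, h0, hP]
    have : cis (φ (2 * π) / 2 - r * (2 * π) / 2 - π / 4) =
        cis ((φ (2 * π) - y - r * (2 * π)) / 2) * cis (y / 2 - π / 4) := by
      rw [← cis_add]; congr 1; ring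
    rw [this, ← hR]; push_cast; ring
  refine ⟨R, Real.exp_pos _, ?_, _, hφ.lin, Complex.exp_ne_zero _, hE⟩
  have h1 := h.1 _ hφ.lin
  rw [hE, exp_lg_zero, h0, map_mul, Complex.conj_ofReal, cis_conj] at h1
  have h2 : cis (-(y / 2 - π / 4)) = I * cis (-y) * cis (y / 2 - π / 4) := by
    rw [← cis_pi_div_two, ← cis_add, ← cis_add]; congr 1; ring
  rw [h2] at h1
  have h3 : ((Real.exp μ : ℝ) : ℂ) * cis (y / 2 - π / 4) ≠ 0 :=
    mul_ne_zero (by exact_mod_cast (Real.exp_pos μ).ne') (cis_ne_zero _)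
  apply mul_right_cancel₀ h3
  rw [h1]; ring

lemma IsMono.sin_formula {r : ℤ} {μ c : ℝ} {p q : ℂ} (h : IsMono r μ c p q) (y : ℝ) :
    ∃ R : ℝ, 0 < R ∧ R * Real.sin (Ph c r μ r y / 2) = p.im + (q * cis (-y)).re := by
  obtain ⟨R, hR, h1, -⟩ := h.formula y
  refine ⟨R, hR, ?_⟩
  have := congrArg Complex.im h1
  rw [mul_assoc I] at this
  simpa [cis_im] using this

lemma IsMono.sin_both {r : ℤ} {μ c : ℝ} {p q : ℂ} (h : IsMono r μ c p q) (hq : |p.im| < ‖q‖) :
    (∃ y, 0 < Real.sin (Ph c r μ r y / 2)) ∧ ∃ y, Real.sin (Ph c r μ r y / 2) < 0 := by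
  have hq' : q * cis (-arg q) = ‖q‖ := by
    have h1 : (‖q‖ : ℂ) * cis (arg q) = q := Complex.norm_mul_exp_arg_mul_I q
    linear_combination (-cis (-arg q)) * h1 + (‖q‖ : ℂ) * cis_mul_neg (arg q)
  constructor
  · obtain ⟨R, hR, h1⟩ := h.sin_formula (arg q)
    refine ⟨arg q, ?_⟩
    rw [hq', Complex.ofReal_re] at h1
    have : 0 < R * Real.sin (Ph c r μ r (arg q) / 2) := by
      rw [h1]; linarith [neg_abs_le p.im]
    rcases (mul_pos_iff.mp this) with h | h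
    · exact h.2
    · linarith [h.1]
  · obtain ⟨R, hR, h1⟩ := h.sin_formula (arg q - π)
    refine ⟨arg q - π, ?_⟩
    have h2 : q * cis (-(arg q - π)) = -(‖q‖ : ℝ) := by
      rw [neg_sub, sub_eq_add_neg, cis_add, cis_pi, ← hq']; ring
    rw [h2] at h1
    simp only [neg_re, ofReal_re] at h1
    have : R * Real.sin (Ph c r μ r (arg q - π) / 2) < 0 := by
      rw [h1]; linarith [le_abs_self p.im]
    by_contra hc
    exact absurd this (not_lt.mpr (mul_nonneg hR.le (not_lt.mp hc)))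

lemma Lk_of_sin {s β μ : ℝ} {r : ℤ} {y : ℝ} (h : Real.sin (Ph s β μ r y / 2) = 0) :
    ∃ m : ℤ, Lk s β μ m := by
  obtain ⟨k, hk⟩ := Real.sin_eq_zero_iff.mp h
  refine ⟨r + k, y, ?_⟩
  unfold Ph at hk ⊢
  push_cast; linarith

lemma IsMono.exists_Lk {r : ℤ} {μ c : ℝ} {p q : ℂ} (h : IsMono r μ c p q)
    (hq : |p.im| < ‖q‖ ∨ (q = 0 ∧ p.im = 0)) : ∃ m : ℤ, Lk c r μ m := by
  rcases hq with hq | ⟨hq, hp⟩
  · obtain ⟨⟨x, hx⟩, y, hy⟩ := h.sin_both hq
    have hc : Continuous (fun y => Real.sin (Ph c r μ r y / 2)) := by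
      have := continuous_Ph' c r μ r
      fun_prop
    obtain ⟨u, hu⟩ := intermediate_value_univ₂ hc continuous_const hy.le hx.le
    exact Lk_of_sin hu
  · obtain ⟨R, hR, h1⟩ := h.sin_formula 0
    rw [hq, hp] at h1
    simp only [zero_mul, zero_re, add_zero, mul_eq_zero] at h1
    exact Lk_of_sin (h1.resolve_left hR.ne')

lemma IsMono.both {r : ℤ} {μ c : ℝ} {p q : ℂ} (h : IsMono r μ c p q) (hq : |p.im| < ‖q‖)
    (hL : Lk c r μ r) : Both c r μ r := by
  obtain ⟨⟨x, hx⟩, y, hy⟩ := h.sin_both hq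
  refine ⟨⟨x, ?_⟩, y, ?_⟩
  · by_contra hc
    push Not at hc
    have h1 := (_root_.abs_lt.mp (hL.abs_lt x)).1
    have := Real.sin_nonpos_of_nonpos_of_neg_pi_le (x := Ph c r μ r x / 2) (by linarith)
      (by linarith)
    linarith
  · by_contra hc
    push Not at hc
    have h1 := (_root_.abs_lt.mp (hL.abs_lt y)).2
    have := Real.sin_nonneg_of_nonneg_of_le_pi (x := Ph c r μ r y / 2) (by linarith)
      (by linarith)
    linarith

lemma IsMono.all_zero {r : ℤ} {μ c : ℝ} {p q : ℂ} (h : IsMono r μ c p q) (hq : q = 0)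
    (hp : p.im = 0) (hL : Lk c r μ r) (y : ℝ) : Ph c r μ r y = 0 := by
  obtain ⟨R, hR, h1⟩ := h.sin_formula y
  rw [hq, hp] at h1
  simp only [zero_mul, zero_re, add_zero, mul_eq_zero] at h1
  have h2 := h1.resolve_left hR.ne'
  have h3 := _root_.abs_lt.mp (hL.abs_lt y)
  have := (Real.sin_eq_zero_iff_of_lt_of_lt (x := Ph c r μ r y / 2) (by linarith [h3.1])
    (by linarith [h3.2])).mp h2
  linarith

lemma Lk.exists_periodic {r : ℤ} {μ c : ℝ} (hL : Lk c r μ r) (hB : ¬ Both c r μ r) :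
    ∃ H, Lin r μ c H ∧ H 0 ≠ 0 ∧ H (2 * π) = H 0 := by
  obtain ⟨p, q, h⟩ := exists_mono r μ c
  obtain ⟨y, hy⟩ := id hL
  obtain ⟨R, hR, h1, H, hH, hH0, hH1⟩ := h.formula y
  rw [hy, zero_div, cis_zero, mul_one] at h1 hH1
  refine ⟨H, hH, hH0, ?_⟩
  suffices R = 1 by rw [hH1, this]; simp
  by_contra hR1
  apply hB
  refine h.both ?_ hL
  have h2 : normSq ((R : ℂ) - p) = normSq q := by
    have : (R : ℂ) - p = I * q * cis (-y) := by rw [h1]; ring
    rw [this, map_mul, map_mul, Complex.normSq_eq_norm_sq (cis (-y)), norm_cis]; simp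
  have h3 := h.2
  rw [← sq_lt_sq₀ (abs_nonneg _) (norm_nonneg _), sq_abs, ← Complex.normSq_eq_norm_sq]
  rw [← h2] at h3 ⊢
  simp only [normSq_apply, sub_re, ofReal_re, sub_im, ofReal_im, zero_sub] at h3 ⊢
  have h4 : R - p.re ≠ 0 := by
    intro h5
    have h6 : p.re = R := by linarith
    rw [h6] at h3
    have : (R - 1) * (R + 1) = 0 := by nlinarith
    rcases mul_eq_zero.mp this with h | h
    · exact hR1 (by linarith)
    · linarith
  nlinarith [mul_self_pos.mpr h4]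

lemma all_periodic {r : ℤ} {μ c : ℝ} (hz : ∀ y, Ph c r μ r y = 0) {H : ℝ → ℂ}
    (hH : Lin r μ c H) : H (2 * π) = H 0 := by
  obtain ⟨p, q, h⟩ := exists_mono r μ c
  have hq : ¬ |p.im| < ‖q‖ := by
    intro hq
    obtain ⟨⟨x, hx⟩, -⟩ := h.sin_both hq
    simp [hz] at hx
  have key : ∀ y, p.im + (q * cis (-y)).re = 0 := by
    intro y
    obtain ⟨R, -, h1⟩ := h.sin_formula y
    rw [← h1, hz]; simp
  have hp : p.im = 0 := by
    have h1 := key 0
    have h2 := key (-π)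
    rw [neg_zero, cis_zero] at h1
    rw [neg_neg, cis_pi] at h2
    simp at h1 h2
    linarith
  have hq0 : q = 0 := by
    rw [hp, abs_zero, not_lt] at hq
    exact norm_le_zero_iff.mp hq
  obtain ⟨R, hR, h1, -⟩ := h.formula 0
  rw [hz, zero_div, cis_zero, hq0] at h1
  have h2 := h.2
  have h3 : p = R := by rw [← mul_one (R : ℂ), h1]; simp
  rw [h3, hq0] at h2
  simp only [normSq_ofReal, map_zero, sub_zero] at h2
  have h4 : R = 1 := by
    have : (R - 1) * (R + 1) = 0 := by nlinarith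
    rcases mul_eq_zero.mp this with h | h
    · linarith
    · linarith
  rw [h.1 H hH, h3, hq0, h4]; simp

lemma Lk.exists_log {r : ℤ} {μ c : ℝ} (hL : Lk c r μ r) {H : ℝ → ℂ} (hH : Lin r μ c H)
    (h0 : H 0 ≠ 0) (hper : H (2 * π) = H 0) :
    ∃ L : ℝ → ℂ, Differentiable ℝ L ∧ (∀ τ, Complex.exp (L τ) = H τ) ∧
      (L (2 * π)).im = (L 0).im := by
  obtain ⟨t, φ, ht, hφ, rfl⟩ := hH.repr h0
  refine ⟨fun τ => Real.log t + lg r μ c φ τ, fun τ => ?_, fun τ => ?_, ?_⟩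
  · exact ((hφ.hasDerivAt_lg τ).const_add _).differentiableAt
  · rw [Complex.exp_add, ← Complex.ofReal_exp, Real.exp_log ht]
  · have ht' : (t : ℂ) ≠ 0 := by exact_mod_cast ht.ne'
    have h1 := mul_left_cancel₀ ht' hper
    obtain ⟨n, hn⟩ := Complex.exp_eq_exp_iff_exists_int.mp h1
    have h2 := congrArg Complex.im hn
    simp [lg] at h2
    have h3 : Lk c r μ (r + 2 * n) := hφ.Lk (by push_cast; linarith)
    have h4 := hL.unique h3
    have h5 : n = 0 := by omega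
    rw [h5] at hn
    simp [hn]

end Pool.Agent.Lib.MP_42e615_an
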