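import Pool.Agent.Lib.MP_42e615_an.Flow

set_option autoImplicit false

open Real Set Filter Topology

namespace Pool.Agent.Lib.MP_42e615_an

noncomputable def Ph (s β μ : ℝ) (r : ℤ) (x : ℝ) : ℝ := P s β μ x - x - r * (2 * π)

def Lk (s β μ : ℝ) (r : ℤ) : Prop := ∃ x, Ph s β μ r x = 0

def Both (s β μ : ℝ) (r : ℤ) : Prop := (∃ x, 0 < Ph s β μ r x) ∧ ∃ y, Ph s β μ r y < 0

lemma Ph_add_int (s β μ : ℝ) (r : ℤ) (x : ℝ) (k : ℤ) :
    Ph s β μ r (x + k * (2 * π)) = Ph s β μ r x := by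
  unfold Ph; rw [P_add_int]; ring

lemma exists_shift (a x : ℝ) : ∃ k : ℤ, x + k * (2 * π) ∈ Ico a (a + 2 * π) := by
  have hp : (0 : ℝ) < 2 * π := by positivity
  refine ⟨-toIcoDiv hp a x, ?_⟩
  have := sub_toIcoDiv_zsmul_mem_Ico hp a x
  simpa [zsmul_eq_mul, sub_eq_add_neg] using this

lemma continuous_Ph (r : ℤ) :
    Continuous (fun p : (ℝ × ℝ × ℝ) × ℝ => Ph p.1.1 p.1.2.1 p.1.2.2 r p.2) := by
  unfold Ph
  have := continuous_P
  fun_prop

lemma continuous_Ph' (s β μ : ℝ) (r : ℤ) : Continuous (Ph s β μ r) :=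
  (continuous_Ph r).comp (f := fun x : ℝ => (((s, β, μ) : ℝ × ℝ × ℝ), x)) (by fun_prop)

lemma continuous_Ph_param (r : ℤ) (x : ℝ) :
    Continuous (fun p : ℝ × ℝ × ℝ => Ph p.1 p.2.1 p.2.2 r x) :=
  (continuous_Ph r).comp (f := fun p : ℝ × ℝ × ℝ => (p, x)) (by fun_prop)

lemma Lk_of_le {s β μ : ℝ} {r : ℤ} {x y : ℝ} (hx : Ph s β μ r x ≤ 0) (hy : 0 ≤ Ph s β μ r y) :
    Lk s β μ r :=
  intermediate_value_univ₂ (continuous_Ph' s β μ r) continuous_const hx hy

lemma Lk.abs_lt {s β μ : ℝ} {r : ℤ} (h : Lk s β μ r) (y : ℝ) : |Ph s β μ r y| < 2 * π := by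
  obtain ⟨x, hx⟩ := h
  obtain ⟨k, hk⟩ := exists_shift x y
  rw [← Ph_add_int s β μ r y k]
  set y' := y + k * (2 * π)
  have h1 := (P_strictMono s β μ).monotone hk.1
  have h2 := P_strictMono s β μ hk.2
  have h3 := P_add_int s β μ x 1
  simp only [Int.cast_one, one_mul] at h3
  rw [h3] at h2
  unfold Ph at hx ⊢
  rw [_root_.abs_lt]
  constructor <;> linarith [hk.1, hk.2]

lemma int_eq_of_abs_lt {s β μ : ℝ} {r m : ℤ} {y : ℝ} (h : |Ph s β μ r y| < 2 * π)
    (hm : Ph s β μ m y = 0) : m = r := by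
  have h1 : Ph s β μ r y = ((m - r : ℤ) : ℝ) * (2 * π) := by
    unfold Ph at hm ⊢; push_cast; linarith
  rw [h1, abs_mul, abs_of_pos (by positivity : (0 : ℝ) < 2 * π)] at h
  have h2 : |((m - r : ℤ) : ℝ)| < 1 := by
    by_contra hc
    push Not at hc
    nlinarith [pi_pos]
  rw [← Int.cast_abs] at h2
  have h3 : |m - r| < 1 := by exact_mod_cast h2
  have := abs_lt.mp h3
  omega

lemma Lk.unique {s β μ : ℝ} {r m : ℤ} (h : Lk s β μ r) (h' : Lk s β μ m) : m = r := by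
  obtain ⟨y, hy⟩ := h'
  exact int_eq_of_abs_lt (h.abs_lt y) hy

lemma isClosed_Lk (r : ℤ) : IsClosed {p : ℝ × ℝ × ℝ | Lk p.1 p.2.1 p.2.2 r} := by
  rw [← isOpen_compl_iff, isOpen_iff_mem_nhds]
  intro p hp
  have hp' : ∀ y, Ph p.1 p.2.1 p.2.2 r y ≠ 0 := fun y hy => hp ⟨y, hy⟩
  have := (isCompact_Icc (a := (0 : ℝ)) (b := 0 + 2 * π)).eventually_forall_of_forall_eventually
    (x₀ := p) (P := fun q y => Ph q.1 q.2.1 q.2.2 r y ≠ 0) (fun y _ =>
      ((continuous_Ph r).continuousAt (x := (p, y))).eventually_ne (hp' y))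
  filter_upwards [this] with q hq
  rintro ⟨x, hx⟩
  obtain ⟨k, hk⟩ := exists_shift 0 x
  exact hq _ (Ico_subset_Icc_self hk) (by rw [Ph_add_int]; exact hx)

lemma Both.eventually {p : ℝ × ℝ × ℝ} {r : ℤ} (h : Both p.1 p.2.1 p.2.2 r) :
    ∀ᶠ q : ℝ × ℝ × ℝ in 𝓝 p, Lk q.1 q.2.1 q.2.2 r := by
  obtain ⟨⟨x, hx⟩, y, hy⟩ := h
  have h1 := ((continuous_Ph_param r x).continuousAt (x := p)).eventually (lt_mem_nhds hx)
  have h2 := ((continuous_Ph_param r y).continuousAt (x := p)).eventually (gt_mem_nhds hy)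
  filter_upwards [h1, h2] with q h1 h2
  exact Lk_of_le h2.le h1.le

lemma Lk.eventually {p : ℝ × ℝ × ℝ} {r : ℤ} (h : Lk p.1 p.2.1 p.2.2 r) :
    ∀ᶠ q : ℝ × ℝ × ℝ in 𝓝 p, ∀ m : ℤ, Lk q.1 q.2.1 q.2.2 m → m = r := by
  have := (isCompact_Icc (a := (0 : ℝ)) (b := 0 + 2 * π)).eventually_forall_of_forall_eventually
    (x₀ := p) (P := fun q y => |Ph q.1 q.2.1 q.2.2 r y| < 2 * π) (fun y _ =>
      ((continuous_Ph r).abs.continuousAt (x := (p, y))).eventually (gt_mem_nhds (h.abs_lt y)))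
  filter_upwards [this] with q hq
  rintro m ⟨x, hx⟩
  obtain ⟨k, hk⟩ := exists_shift 0 x
  exact int_eq_of_abs_lt (hq _ (Ico_subset_Icc_self hk)) (by rw [Ph_add_int]; exact hx)

lemma IsSol.Ph_eq {s β μ : ℝ} {φ : ℝ → ℝ} (h : IsSol s β μ φ) (r : ℤ) :
    Ph s β μ r (φ 0) = φ (2 * π) - φ 0 - r * (2 * π) := by
  unfold Ph; rw [h.P_eq]

lemma IsSol.per {s β μ : ℝ} {φ : ℝ → ℝ} (h : IsSol s β μ φ) {r : ℤ}
    (h0 : Ph s β μ r (φ 0) = 0) (τ : ℝ) : φ (τ + 2 * π) = φ τ + r * (2 * π) := by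
  have := h.shift.unique (h.add_int r) (t₀ := 0) (by
    rw [h.Ph_eq] at h0
    simp only [zero_add]; linarith)
  exact congrFun this τ

lemma IsSol.Lk {s β μ : ℝ} {φ : ℝ → ℝ} (h : IsSol s β μ φ) {r : ℤ}
    (h0 : φ (2 * π) = φ 0 + r * (2 * π)) : Lk s β μ r :=
  ⟨φ 0, by rw [h.Ph_eq]; linarith⟩

lemma Lk.exists_sol {s β μ : ℝ} {r : ℤ} (h : Lk s β μ r) :
    ∃ φ, IsSol s β μ φ ∧ ∀ τ, φ (τ + 2 * π) = φ τ + r * (2 * π) := by
  obtain ⟨x, hx⟩ := h
  refine ⟨flow s β μ x, flow_sol s β μ x, (flow_sol s β μ x).per ?_⟩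
  rwa [flow_zero]

lemma Lk.neg {s β μ : ℝ} {r : ℤ} (h : Lk s β μ r) : Lk s (-β) μ (-r) := by
  obtain ⟨φ, hφ, hper⟩ := h.exists_sol
  have h1 : IsSol s (-β) μ (fun τ => -φ (τ + π)) := by
    intro τ
    refine ((hφ (τ + π)).comp_add_const τ π).neg.congr_deriv ?_
    simp [vf, cos_add_pi]; ring
  refine h1.Lk ?_
  have := hper π
  simp only [zero_add]
  rw [add_comm (2 * π) π, this]; push_cast; ring

lemma Lk.tendsto {s β μ : ℝ} {r : ℤ} (h : Lk s β μ r) :
    ∃ φ, IsSol s β μ φ ∧ Tendsto (fun τ => φ τ / τ) atTop (𝓝 (r : ℝ)) := by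
  obtain ⟨φ, hφ, hper⟩ := h.exists_sol
  refine ⟨φ, hφ, ?_⟩
  have hp : Function.Periodic (fun τ => φ τ - r * τ) (2 * π) := by
    intro τ; simp only [hper]; ring
  have hc : Continuous (fun τ => φ τ - r * τ) := by
    have := hφ.continuous; fun_prop
  obtain ⟨C, hC⟩ := (hp.isBounded_of_continuous (by positivity) hc).exists_norm_le
  have h0 : Tendsto (fun τ => (φ τ - r * τ) / τ) atTop (𝓝 0) := by
    refine squeeze_zero_norm' (a := fun τ => C / τ) ?_ (tendsto_const_nhds.div_atTop tendsto_id)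
    filter_upwards [eventually_gt_atTop 0] with τ hτ
    rw [norm_div, Real.norm_of_nonneg hτ.le]
    gcongr
    exact hC _ ⟨τ, rfl⟩
  have h1 := h0.add_const (r : ℝ)
  rw [zero_add] at h1
  refine h1.congr' ?_
  filter_upwards [eventually_gt_atTop 0] with τ hτ
  field_simp
  ring

lemma IsSol.iter {s β μ : ℝ} {φ : ℝ → ℝ} (h : IsSol s β μ φ) (n : ℕ) :
    IsSol s β μ (fun τ => φ (τ + n * (2 * π))) := by
  induction n with
  | zero => simpa using h
  | succ n ih =>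
    have := ih.shift
    convert this using 3
    push_cast; ring

lemma Lk_of_tendsto {s β μ : ℝ} {r : ℤ} {φ : ℝ → ℝ} (hφ : IsSol s β μ φ)
    (hlim : Tendsto (fun τ => φ τ / τ) atTop (𝓝 (r : ℝ))) : Lk s β μ r := by
  by_contra hno
  have hstep : ∀ n : ℕ, φ ((n + 1 : ℕ) * (2 * π)) - φ (n * (2 * π)) - r * (2 * π) =
      Ph s β μ r (φ (n * (2 * π))) := by
    intro n
    have := (hφ.iter n).Ph_eq r
    simp only [zero_add] at this
    rw [this]
    congr 3
    push_cast; ring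
  have hT : Tendsto (fun n : ℕ => (n : ℝ) * (2 * π)) atTop atTop :=
    tendsto_natCast_atTop_atTop.atTop_mul_const (by positivity)
  have hlim' := hlim.comp hT
  have hinv : Tendsto (fun n : ℕ => φ 0 / ((n : ℝ) * (2 * π))) atTop (𝓝 0) :=
    tendsto_const_nhds.div_atTop hT
  have hne : (Icc (0 : ℝ) (0 + 2 * π)).Nonempty := ⟨0, le_rfl, by positivity⟩
  have hc := continuous_Ph' s β μ r
  rcases lt_trichotomy (Ph s β μ r 0) 0 with h0 | h0 | h0
  · obtain ⟨y, -, hy⟩ := isCompact_Icc.exists_isMaxOn hne hc.continuousOn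
    have hneg : Ph s β μ r y < 0 := by
      by_contra hc'
      exact hno (Lk_of_le h0.le (not_lt.mp hc'))
    have hall : ∀ x, Ph s β μ r x ≤ Ph s β μ r y := by
      intro x
      obtain ⟨k, hk⟩ := exists_shift 0 x
      rw [← Ph_add_int s β μ r x k]
      exact hy (Ico_subset_Icc_self hk)
    set δ := Ph s β μ r y
    have hn : ∀ n : ℕ, φ (n * (2 * π)) ≤ φ 0 + n * (r * (2 * π) + δ) := by
      intro n
      induction n with
      | zero => simp
      | succ n ih =>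
        have := hstep n
        have h2 := hall (φ (n * (2 * π)))
        push_cast at this ⊢
        linarith
    have hle : (r : ℝ) ≤ 0 + (r + δ / (2 * π)) := by
      refine le_of_tendsto_of_tendsto hlim' (hinv.add_const _) ?_
      filter_upwards [eventually_gt_atTop 0] with n hn0
      have hn0' : (0 : ℝ) < n := by exact_mod_cast hn0
      simp only [Function.comp]
      rw [div_le_iff₀ (by positivity)]
      have : (φ 0 / (n * (2 * π)) + (r + δ / (2 * π))) * (n * (2 * π)) =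
          φ 0 + n * (r * (2 * π) + δ) := by field_simp
      rw [this]; exact hn n
    have : δ / (2 * π) < 0 := div_neg_of_neg_of_pos hneg (by positivity)
    linarith
  · exact hno ⟨0, h0⟩
  · obtain ⟨y, -, hy⟩ := isCompact_Icc.exists_isMinOn hne hc.continuousOn
    have hpos : 0 < Ph s β μ r y := by
      by_contra hc'
      exact hno (Lk_of_le (not_lt.mp hc') h0.le)
    have hall : ∀ x, Ph s β μ r y ≤ Ph s β μ r x := by
      intro x
      obtain ⟨k, hk⟩ := exists_shift 0 x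
      rw [← Ph_add_int s β μ r x k]
      exact hy (Ico_subset_Icc_self hk)
    set δ := Ph s β μ r y
    have hn : ∀ n : ℕ, φ 0 + n * (r * (2 * π) + δ) ≤ φ (n * (2 * π)) := by
      intro n
      induction n with
      | zero => simp
      | succ n ih =>
        have := hstep n
        have h2 := hall (φ (n * (2 * π)))
        push_cast at this ⊢
        linarith
    have hle : 0 + (r + δ / (2 * π)) ≤ (r : ℝ) := by
      refine le_of_tendsto_of_tendsto (hinv.add_const _) hlim' ?_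
      filter_upwards [eventually_gt_atTop 0] with n hn0
      have hn0' : (0 : ℝ) < n := by exact_mod_cast hn0
      simp only [Function.comp]
      rw [le_div_iff₀ (by positivity)]
      have : (φ 0 / (n * (2 * π)) + (r + δ / (2 * π))) * (n * (2 * π)) =
          φ 0 + n * (r * (2 * π) + δ) := by field_simp
      rw [this]; exact hn n
    have : 0 < δ / (2 * π) := div_pos hpos (by positivity)
    linarith

lemma not_Lk_zero {s : ℝ} (hs : s ≠ 0) {r : ℤ} (hr : r ≠ 0) : ¬ Lk s r 0 r := by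
  intro h
  obtain ⟨φ, hφ, hper⟩ := h.exists_sol
  set Ψ : ℝ → ℝ := fun τ => 2 * s * cos (φ τ) - r * (φ τ - r * τ) with hΨ
  have hd : ∀ τ, HasDerivAt Ψ (4 * s ^ 2 * sin (φ τ) ^ 2) τ := by
    intro τ
    have h1 := ((hφ τ).cos.const_mul (2 * s)).sub
      (((hφ τ).sub ((hasDerivAt_id τ).const_mul (r : ℝ))).const_mul (r : ℝ))
    refine h1.congr_deriv ?_
    simp [vf]; ring
  have hmono : Monotone Ψ := monotone_of_deriv_nonneg (fun τ => (hd τ).differentiableAt)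
    (fun τ => by rw [(hd τ).deriv]; positivity)
  have hend : Ψ (2 * π) = Ψ 0 := by
    have := hper 0
    simp only [zero_add] at this
    simp only [hΨ, this, cos_add_int_mul_two_pi]; ring
  have hconst : ∀ τ ∈ Ioo (0 : ℝ) (2 * π), Ψ τ = Ψ 0 := fun τ hτ =>
    le_antisymm (hend ▸ hmono hτ.2.le) (hmono hτ.1.le)
  have hsin : ∀ τ ∈ Ioo (0 : ℝ) (2 * π), sin (φ τ) = 0 := by
    intro τ hτ
    have h1 : HasDerivAt Ψ 0 τ := by
      refine (hasDerivAt_const τ (Ψ 0)).congr_of_eventuallyEq ?_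
      filter_upwards [Ioo_mem_nhds hτ.1 hτ.2] with u hu using hconst u hu
    have h2 := (hd τ).unique h1
    have h3 : sin (φ τ) ^ 2 = 0 := by
      rcases mul_eq_zero.mp h2 with h | h
      · exact absurd h (by positivity)
      · exact h
    exact pow_eq_zero_iff (two_ne_zero) |>.mp h3
  have hπ : π ∈ Ioo (0 : ℝ) (2 * π) := ⟨pi_pos, by linarith [pi_pos]⟩
  have h1 : HasDerivAt (fun τ => sin (φ τ)) 0 π := by
    refine (hasDerivAt_const π (0 : ℝ)).congr_of_eventuallyEq ?_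
    filter_upwards [Ioo_mem_nhds hπ.1 hπ.2] with u hu using hsin u hu
  have h2 := (hφ π).sin.unique h1
  have h3 := hsin π hπ
  have h4 := sin_sq_add_cos_sq (φ π)
  simp only [vf, h3, mul_zero, zero_add, zero_mul, add_zero] at h2
  rcases mul_eq_zero.mp h2 with h | h
  · rw [h3, h] at h4; norm_num at h4
  · exact hr (by exact_mod_cast h)

lemma Ph_lt_of_beta {s β β' μ : ℝ} (hβ : β < β') (r : ℤ) (x : ℝ) :
    Ph s β μ r x < Ph s β' μ r x := by
  unfold Ph; linarith [P_lt_of_beta (s := s) (μ := μ) hβ x]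

lemma Lk.exists_other {s β μ : ℝ} {r : ℤ} (h : Lk s β μ r) (hy : ∃ y, Ph s β μ r y ≠ 0) :
    ∃ β', β' ≠ β ∧ Lk s β' μ r := by
  obtain ⟨x, hx⟩ := h
  obtain ⟨y, hy⟩ := hy
  have hc : Continuous (fun b : ℝ => Ph s b μ r y) :=
    (continuous_Ph_param r y).comp (f := fun b : ℝ => ((s, b, μ) : ℝ × ℝ × ℝ)) (by fun_prop)
  rcases lt_or_gt_of_ne hy with hy | hy
  · have h1 : ∀ᶠ b in 𝓝[>] β, Ph s b μ r y < 0 :=
      nhdsWithin_le_nhds ((hc.continuousAt (x := β)).eventually (gt_mem_nhds hy))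
    obtain ⟨b, hb1, hb2⟩ := (h1.and self_mem_nhdsWithin).exists
    have hb2' : β < b := hb2
    refine ⟨b, hb2'.ne', Lk_of_le (y := x) hb1.le ?_⟩
    linarith [Ph_lt_of_beta (s := s) (μ := μ) hb2' r x]
  · have h1 : ∀ᶠ b in 𝓝[<] β, 0 < Ph s b μ r y :=
      nhdsWithin_le_nhds ((hc.continuousAt (x := β)).eventually (lt_mem_nhds hy))
    obtain ⟨b, hb1, hb2⟩ := (h1.and self_mem_nhdsWithin).exists
    have hb2' : b < β := hb2
    refine ⟨b, hb2'.ne, Lk_of_le (x := x) ?_ hb1.le⟩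
    linarith [Ph_lt_of_beta (s := s) (μ := μ) hb2' r x]

lemma eq_of_all_zero {s β β' μ : ℝ} {r : ℤ} (h : ∀ y, Ph s β μ r y = 0) (h' : Lk s β' μ r) :
    β' = β := by
  obtain ⟨x, hx⟩ := h'
  rcases lt_trichotomy β' β with hb | hb | hb
  · linarith [Ph_lt_of_beta (s := s) (μ := μ) hb r x, h x]
  · exact hb
  · linarith [Ph_lt_of_beta (s := s) (μ := μ) hb r x, h x]

lemma Lk_s_zero (μ : ℝ) (r : ℤ) : Lk 0 r μ r := by
  have h : IsSol 0 r μ (fun τ => r * τ + 2 * μ * sin τ) := by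
    intro τ
    refine (((hasDerivAt_id τ).const_mul (r : ℝ)).add
      ((hasDerivAt_sin τ).const_mul (2 * μ))).congr_deriv ?_
    simp [vf]
  exact h.Lk (by simp)

end Pool.Agent.Lib.MP_42e615_an
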