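import Pool.Agent.Lib.MP_42e615_an.Theta

set_option autoImplicit false

open Real Set Filter Topology

namespace Pool.Agent.Lib.MP_42e615_an

lemma locked_above {N : ℕ} {μ s : ℝ} (hs : 0 ≤ s) (hμ : 0 < μ) (hno : ∀ e, ¬ Sub N μ s e)
    {r : ℤ} (hr : r = -((N + 1 : ℕ) : ℤ)) : Lk s r μ r := by
  have hcont : Continuous (fun c : ℝ => ((c, (r : ℝ), μ) : ℝ × ℝ × ℝ)) := by fun_prop
  refine IsClosed.mem_of_ge_of_forall_exists_gt (s := {c | Lk c r μ r}) (a := 0)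
    (((isClosed_Lk r).preimage hcont).inter isClosed_Icc) (Lk_s_zero μ r) hs ?_
  rintro c ⟨hc, hc'⟩
  have h1 := (hcont.continuousAt (x := c)).eventually (Lk.eventually (p := (c, (r : ℝ), μ)) hc)
  have h2 : ∀ᶠ t in 𝓝[>] c, t ∈ Ioc c s := Ioc_mem_nhdsGT hc'.2
  obtain ⟨t, ht1, ht2⟩ := (h2.and (nhdsWithin_le_nhds h1)).exists
  refine ⟨t, ?_, ht1⟩
  obtain ⟨p, q, hpq⟩ := exists_mono r μ t
  have h3 := mono_dichotomy hμ hno (c := t) ⟨hc'.1.trans ht1.1.le, ht1.2⟩ (hr ▸ hpq)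
  obtain ⟨m, hm⟩ := hpq.exists_Lk h3
  have h4 := ht2 m hm
  rw [h4] at hm
  exact hm

lemma neg_axis (N : ℕ) {s : ℝ} (hs : 0 < s) {r : ℤ} (hr : r = -((N + 1 : ℕ) : ℤ)) :
    ∃ μ₀ : ℝ, 0 < μ₀ ∧ (∀ μ, 0 ≤ μ → μ < μ₀ → ¬ Lk s r μ r) ∧
      (Lk s r μ₀ r ∧ ∃ y, Ph s r μ₀ r y ≠ 0) ∧
      ∀ μ, μ₀ < μ → Lk s r μ r ∧ (Both s r μ r ∨ ∀ y, Ph s r μ r y = 0) := by
  obtain ⟨μ₀, hμ₀, ⟨e, he⟩, hmax⟩ := exists_mu0 N hs
  have hcont : Continuous (fun m : ℝ => ((s, (r : ℝ), m) : ℝ × ℝ × ℝ)) := by fun_prop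
  have hclosed : IsClosed {m | Lk s r m r} := (isClosed_Lk r).preimage hcont
  have habove : ∀ μ, μ₀ < μ → Lk s r μ r ∧ (Both s r μ r ∨ ∀ y, Ph s r μ r y = 0) := by
    intro μ hμ
    have hno : ∀ e, ¬ Sub N μ s e := fun e he => absurd (hmax μ e he) (not_le.mpr hμ)
    have hL := locked_above hs.le (hμ₀.trans hμ) hno hr
    refine ⟨hL, ?_⟩
    obtain ⟨p, q, hpq⟩ := exists_mono r μ s
    rcases mono_dichotomy (hμ₀.trans hμ) hno ⟨hs.le, le_rfl⟩ (hr ▸ hpq) with h | ⟨h1, h2⟩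
    · exact Or.inl (hpq.both h hL)
    · exact Or.inr (hpq.all_zero h1 h2 hL)
  have hL₀ : Lk s r μ₀ r := by
    have : closure (Ioi μ₀) ⊆ {m | Lk s r m r} :=
      hclosed.closure_subset_iff.mpr fun m hm => (habove m hm).1
    rw [closure_Ioi] at this
    exact this self_mem_Ici
  refine ⟨μ₀, hμ₀, fun μ hμ0 hμ hL => ?_, ⟨hL₀, ?_⟩, habove⟩
  · obtain ⟨m, ⟨hm1, hm2⟩, hmin⟩ := (isCompact_Icc.inter_right hclosed).exists_isLeast
      (s := Icc 0 μ ∩ {m | Lk s r m r}) ⟨μ, ⟨hμ0, le_rfl⟩, hL⟩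
    have hm0 : 0 < m := by
      refine lt_of_le_of_ne hm1.1 ?_
      rintro rfl
      exact not_Lk_zero hs.ne' (by omega) hm2
    have hB : ¬ Both s r m r := by
      intro hB
      have h1 := (hcont.continuousAt (x := m)).eventually
        (Both.eventually (p := (s, (r : ℝ), m)) hB)
      have h2 : ∀ᶠ t in 𝓝[<] m, t ∈ Ioo 0 m := Ioo_mem_nhdsLT hm0
      obtain ⟨t, ht1, ht2⟩ := (h2.and (nhdsWithin_le_nhds h1)).exists
      have := hmin ⟨⟨ht1.1.le, ht1.2.le.trans hm1.2⟩, ht2⟩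
      linarith [ht1.2]
    obtain ⟨H, hH, hH0, hH1⟩ := Lk.exists_periodic hm2 hB
    subst hr
    exact hH0 ((no_bad hs hm0 (hm1.2.trans hμ.le) he hm2 hH hH1).2 (hm1.2.trans_lt hμ))
  · by_contra hz
    push Not at hz
    obtain ⟨E, hE, hE0⟩ := exists_lin r μ₀ s Complex.I
    have h1 := all_periodic hz hE
    subst hr
    have := (no_bad hs hμ₀ le_rfl he hL₀ hE h1).1
    rw [hE0] at this
    simp at this

def LL (ω : ℝ) (r : ℤ) : Set (ℝ × ℝ) := {p : ℝ × ℝ | ∃ φ : ℝ → ℝ,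
  (∀ t : ℝ, HasDerivAt φ (-Real.sin (φ t) + p.1 + p.2 * Real.cos (ω * t)) t) ∧
  Filter.Tendsto (fun t : ℝ => φ t / (ω * t)) Filter.atTop (nhds (r : ℝ))}

lemma mem_LL {ω : ℝ} (hω : 0 < ω) (r : ℤ) (p : ℝ × ℝ) :
    p ∈ LL ω r ↔ Lk (1 / (2 * ω)) (p.1 / ω) (p.2 / (2 * ω)) r := by
  constructor
  · rintro ⟨φ, h1, h2⟩
    refine Lk_of_tendsto (φ := fun τ => φ (τ / ω)) (fun τ => ?_) ?_
    · refine ((h1 (τ / ω)).comp τ ((hasDerivAt_id τ).div_const ω)).congr_deriv ?_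
      rw [mul_div_cancel₀ _ hω.ne']
      unfold vf
      field_simp
    · refine (h2.comp (tendsto_id.atTop_div_const hω)).congr fun τ => ?_
      simp only [Function.comp, id]
      rw [mul_div_cancel₀ _ hω.ne']
  · intro h
    obtain ⟨φ, h1, h2⟩ := h.tendsto
    refine ⟨fun t => φ (ω * t), fun t => ?_, h2.comp (tendsto_id.const_mul_atTop hω)⟩
    refine ((h1 (ω * t)).comp t ((hasDerivAt_id t).const_mul ω)).congr_deriv ?_
    unfold vf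
    field_simp

def Concl (ω : ℝ) (r : ℤ) (L : Set (ℝ × ℝ)) : Prop := ∃ a : ℝ,
  IsGreatest {A : ℝ | (ω * (r : ℝ), A) ∈ frontier L ∧
      ¬ (A ≠ 0 ∧ {p ∈ L | p.2 = A} = {(ω * (r : ℝ), A)})} a ∧
  {A : ℝ | 0 ≤ A ∧ (ω * (r : ℝ), A) ∈ L} = Set.Ici a

lemma concl_neg {ω : ℝ} (hω : 0 < ω) {r : ℤ} (hr : r < 0) : Concl ω r (LL ω r) := by
  obtain ⟨N, hN⟩ : ∃ N : ℕ, r = -((N + 1 : ℕ) : ℤ) := ⟨(-r - 1).toNat, by omega⟩
  obtain ⟨μ₀, hμ₀, hB, ⟨hC1, hC2⟩, hA⟩ := neg_axis N (s := 1 / (2 * ω)) (by positivity) hN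
  have h2ω : 0 < 2 * ω := by positivity
  have hax : ∀ A, (ω * (r : ℝ), A) ∈ LL ω r ↔ Lk (1 / (2 * ω)) r (A / (2 * ω)) r := by
    intro A
    rw [mem_LL hω]
    simp only [mul_div_cancel_left₀ _ hω.ne']
  have ha : 2 * ω * μ₀ / (2 * ω) = μ₀ := mul_div_cancel_left₀ _ h2ω.ne'
  have hmem : (ω * (r : ℝ), 2 * ω * μ₀) ∈ LL ω r := by rw [hax, ha]; exact hC1
  have hnot : ∀ A, 0 ≤ A → A < 2 * ω * μ₀ → (ω * (r : ℝ), A) ∉ LL ω r := by
    intro A h0 h1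
    rw [hax]
    exact hB _ (by positivity) (by rw [div_lt_iff₀ h2ω]; linarith)
  refine ⟨2 * ω * μ₀, ⟨⟨⟨subset_closure hmem, fun hint => ?_⟩, ?_⟩, ?_⟩, ?_⟩
  · have hc : Continuous (fun A : ℝ => ((ω * (r : ℝ), A) : ℝ × ℝ)) := by fun_prop
    have h1 := (hc.continuousAt (x := 2 * ω * μ₀)).eventually (mem_interior_iff_mem_nhds.mp hint)
    have h2 : ∀ᶠ t in 𝓝[<] (2 * ω * μ₀), t ∈ Ioo 0 (2 * ω * μ₀) := Ioo_mem_nhdsLT (by positivity)
    obtain ⟨t, ht1, ht2⟩ := (h2.and (nhdsWithin_le_nhds h1)).exists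
    exact hnot t ht1.1.le ht1.2 ht2
  · rintro ⟨-, h⟩
    obtain ⟨β, hβ, hβ'⟩ := hC1.exists_other hC2
    have h1 : ((ω * β, 2 * ω * μ₀) : ℝ × ℝ) ∈ {p ∈ LL ω r | p.2 = 2 * ω * μ₀} := by
      refine ⟨?_, rfl⟩
      rw [mem_LL hω]
      simp only [mul_div_cancel_left₀ _ hω.ne', ha]
      exact hβ'
    rw [h, mem_singleton_iff, Prod.mk.injEq] at h1
    exact hβ (mul_left_cancel₀ hω.ne' h1.1)
  · rintro A ⟨hfr, hA'⟩
    by_contra hlt
    push Not at hlt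
    obtain ⟨hL, hD⟩ := hA (A / (2 * ω)) (by rw [lt_div_iff₀ h2ω]; linarith)
    rcases hD with hD | hD
    · apply hfr.2
      rw [mem_interior_iff_mem_nhds]
      have hc : Continuous
          (fun p : ℝ × ℝ => ((1 / (2 * ω), p.1 / ω, p.2 / (2 * ω)) : ℝ × ℝ × ℝ)) := by fun_prop
      have h1 := (hc.continuousAt (x := (ω * (r : ℝ), A))).eventually
        (Both.eventually (r := r) (by
          simp only [mul_div_cancel_left₀ _ hω.ne']; exact hD))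
      filter_upwards [h1] with p hp
      exact (mem_LL hω r p).mpr hp
    · apply hA'
      refine ⟨by nlinarith [mul_pos h2ω hμ₀], ?_⟩
      ext ⟨B, A'⟩
      simp only [mem_ofPred_eq, mem_singleton_iff, Prod.mk.injEq]
      constructor
      · rintro ⟨h1, rfl⟩
        have := eq_of_all_zero hD ((mem_LL hω r _).mp h1)
        refine ⟨?_, rfl⟩
        simp only at this
        rw [← this]; field_simp
      · rintro ⟨rfl, rfl⟩
        exact ⟨(hax _).mpr hL, rfl⟩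
  · ext A
    simp only [mem_ofPred_eq, mem_Ici]
    constructor
    · rintro ⟨h0, h1⟩
      by_contra hlt
      exact hnot A h0 (not_le.mp hlt) h1
    · intro h
      refine ⟨le_trans (by positivity) h, ?_⟩
      rcases h.eq_or_lt with rfl | h
      · exact hmem
      · exact (hax A).mpr (hA _ (by rw [lt_div_iff₀ h2ω]; linarith)).1

lemma LL_neg {ω : ℝ} (hω : 0 < ω) (r : ℤ) :
    LL ω r = ((Homeomorph.neg ℝ).prodCongr (Homeomorph.refl ℝ)) ⁻¹' LL ω (-r) := by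
  ext ⟨B, A⟩
  rw [mem_preimage, mem_LL hω, mem_LL hω]
  simp only [Homeomorph.coe_prodCongr, Prod.map, Homeomorph.coe_neg, Homeomorph.refl_apply, id,
    neg_div]
  refine ⟨Lk.neg, fun h => ?_⟩
  simpa using h.neg

lemma concl {ω : ℝ} (hω : 0 < ω) {r : ℤ} (hr : r ≠ 0) : Concl ω r (LL ω r) := by
  rcases lt_or_gt_of_ne hr with hr | hr
  · exact concl_neg hω hr
  obtain ⟨a, h1, h2⟩ := concl_neg hω (r := -r) (by omega)
  set h := (Homeomorph.neg ℝ).prodCongr (Homeomorph.refl ℝ) with hh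
  have happ : ∀ B A : ℝ, h (B, A) = (-B, A) := fun B A => rfl
  have hx : ω * ((-r : ℤ) : ℝ) = -(ω * r) := by push_cast; ring
  rw [hx] at h1 h2
  refine ⟨a, ?_, ?_⟩
  · convert h1 using 3 with A
    rw [LL_neg hω r, ← hh, ← Homeomorph.preimage_frontier, mem_preimage, happ]
    refine and_congr Iff.rfl (not_congr (and_congr Iff.rfl ?_))
    simp only [Set.ext_iff, mem_ofPred_eq, mem_preimage, mem_singleton_iff, Prod.forall, happ,
      Prod.mk.injEq]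
    constructor
    · intro H B A'
      have := H (-B) A'
      rw [neg_neg] at this
      rw [this, neg_eq_iff_eq_neg]
    · intro H B A'
      rw [H (-B) A', neg_inj]
  · rw [← h2, LL_neg hω r, ← hh]
    rfl

end Pool.Agent.Lib.MP_42e615_an
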