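import Pool.Agent.Lib.MP_42e615_an.Axis

set_option autoImplicit false

open Real Set Filter Topology Complex ComplexConjugate Polynomial

namespace Pool.Agent.Lib.MP_42e615_an

lemma poly_eq_zero_of_cis {p : ℂ[X]} (h : ∀ τ, p.eval (cis τ) = 0) : p = 0 := by
  refine eq_zero_of_infinite_isRoot p ?_
  have hinj : InjOn cis (Icc 0 π) := by
    intro x hx y hy hxy
    refine Real.injOn_cos hx hy ?_
    rw [← cis_re, ← cis_re, hxy]
  refine ((Icc_infinite pi_pos).image hinj).mono ?_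
  rintro _ ⟨τ, -, rfl⟩
  exact h τ

lemma lin_iff_poly {N : ℕ} {μ c : ℝ} {p : ℂ[X]} (hp : p.natDegree ≤ N) :
    Lin (-((N + 1 : ℕ) : ℝ)) μ c (fun τ => p.eval (cis τ)) ↔
      C (μ : ℂ) * p - derivative p = C (c : ℂ) * reflect N (p.map conj) := by
  have hd : ∀ τ, HasDerivAt (fun τ => p.eval (cis τ)) (p.derivative.eval (cis τ) * (I * cis τ)) τ :=
    fun τ => (p.hasDerivAt (cis τ)).comp_of_eq τ (hasDerivAt_cis' τ) rfl
  have key : ∀ τ, cis (-(-((N + 1 : ℕ) : ℝ)) * τ) * conj (p.eval (cis τ)) =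
      cis τ * (reflect N (p.map conj)).eval (cis τ) := by
    intro τ
    rw [eval_reflect' (natDegree_map_le.trans hp) (cis_ne_zero τ), neg_neg, ← cis_pow]
    have h1 : (cis τ)⁻¹ = conj (cis τ) := by
      rw [cis_conj]; exact (eq_inv_of_mul_eq_one_right (cis_mul_neg τ)).symm
    rw [h1, eval_map, eval₂_hom]
    ring
  constructor
  · intro h
    rw [← sub_eq_zero]
    refine poly_eq_zero_of_cis fun τ => ?_
    have h1 := (hd τ).unique (h τ)
    simp only [eval_sub, eval_mul, eval_C]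
    apply mul_left_cancel₀ (mul_ne_zero I_ne_zero (cis_ne_zero τ))
    linear_combination -h1 + (I * c) * key τ
  · intro h τ
    refine (hd τ).congr_deriv ?_
    have h1 := congrArg (eval (cis τ)) h
    simp only [eval_sub, eval_mul, eval_C] at h1
    linear_combination (-I * cis τ) * h1 + (I * c) * key τ

lemma poly_coeff {N : ℕ} {μ c : ℝ} {p : ℂ[X]}
    (h : C (μ : ℂ) * p - derivative p = C (c : ℂ) * reflect N (p.map conj)) (k : ℕ) :
    μ * p.coeff k - p.coeff (k + 1) * (k + 1) = c * conj (p.coeff (revAt N k)) := by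
  have := congrArg (fun q => q.coeff k) h
  simpa only [coeff_sub, coeff_C_mul, coeff_derivative, coeff_reflect, coeff_map] using this

lemma poly_eq_zero_of_no_sub {N : ℕ} {μ c s : ℝ} (hμ : 0 ≤ μ) (hc : |c| ≤ s)
    (hno : ∀ e, ¬ Sub N μ s e) {p : ℂ[X]} (hp : p.natDegree ≤ N)
    (h : C (μ : ℂ) * p - derivative p = C (c : ℂ) * reflect N (p.map conj)) : p = 0 := by
  by_contra hp0
  refine hno (fun k => ‖p.coeff k‖) ⟨fun _ => norm_nonneg _, fun k hk => ?_, ?_, fun k hk => ?_⟩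
  · simp [coeff_eq_zero_of_natDegree_lt (lt_of_le_of_lt hp hk)]
  · exact ⟨p.natDegree, by simpa using hp0⟩
  · have h1 := poly_coeff h k
    rw [revAt_le hk] at h1
    have h2 : (μ : ℂ) * p.coeff k = ((k + 1 : ℝ) : ℂ) * p.coeff (k + 1) +
        c * conj (p.coeff (N - k)) := by
      push_cast; linear_combination h1
    have h3 := congrArg norm h2
    rw [norm_mul, Complex.norm_real, Real.norm_of_nonneg hμ] at h3
    beta_reduce
    rw [h3]
    refine (norm_add_le _ _).trans ?_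
    rw [norm_mul, norm_mul, Complex.norm_real, Complex.norm_real, Complex.norm_conj,
      Real.norm_of_nonneg (by positivity), Real.norm_eq_abs]
    gcongr

lemma exists_re_im {N : ℕ} {μ c : ℝ} {p : ℂ[X]} (hp : p.natDegree ≤ N)
    (h : C (μ : ℂ) * p - derivative p = C (c : ℂ) * reflect N (p.map conj)) :
    ∃ f g : ℝ[X], f.natDegree ≤ N ∧ g.natDegree ≤ N ∧
      C μ * f - derivative f = C c * reflect N f ∧
      C μ * g - derivative g = C (-c) * reflect N g ∧
      p.eval 1 = (f.eval 1 : ℝ) + (g.eval 1 : ℝ) * I := by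
  have aux : ∀ φ : ℂ → ℝ, φ 0 = 0 → ∃ f : ℝ[X], f.natDegree ≤ N ∧ ∀ k, f.coeff k = φ (p.coeff k) := by
    intro φ hφ
    have hc : ∀ k, (∑ i ∈ Finset.range (N + 1), monomial i (φ (p.coeff i))).coeff k =
        φ (p.coeff k) := by
      intro k
      rw [finsetSum_coeff]
      simp only [coeff_monomial]
      rw [Finset.sum_ite_eq' (Finset.range (N + 1)) k]
      split_ifs with hk
      · rfl
      · rw [coeff_eq_zero_of_natDegree_lt (lt_of_le_of_lt hp (by simpa using hk)), hφ]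
    refine ⟨_, natDegree_le_iff_coeff_eq_zero.mpr fun k hk => ?_, hc⟩
    rw [hc, coeff_eq_zero_of_natDegree_lt (lt_of_le_of_lt hp hk), hφ]
  obtain ⟨f, hf, hf'⟩ := aux Complex.re rfl
  obtain ⟨g, hg, hg'⟩ := aux Complex.im rfl
  refine ⟨f, g, hf, hg, ?_, ?_, ?_⟩
  · ext k
    have := congrArg Complex.re (poly_coeff h k)
    simp only [coeff_sub, coeff_C_mul, coeff_derivative, coeff_reflect, hf']
    simpa using this
  · ext k
    have := congrArg Complex.im (poly_coeff h k)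
    simp only [coeff_sub, coeff_C_mul, coeff_derivative, coeff_reflect, hg']
    simpa using this
  · rw [eval_eq_sum_range' (Nat.lt_succ_of_le hp), eval_eq_sum_range' (Nat.lt_succ_of_le hf),
      eval_eq_sum_range' (Nat.lt_succ_of_le hg)]
    push_cast
    rw [Finset.sum_mul, ← Finset.sum_add_distrib]
    refine Finset.sum_congr rfl fun k _ => ?_
    rw [hf', hg']
    simp

lemma lin_of_real_poly {N : ℕ} {μ c : ℝ} {f : ℝ[X]} (hf : f.natDegree ≤ N)
    (h : C μ * f - derivative f = C c * reflect N f) :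
    Lin (-((N + 1 : ℕ) : ℝ)) μ c (fun τ => (f.map Complex.ofRealHom).eval (cis τ)) := by
  rw [lin_iff_poly (natDegree_map_le.trans hf)]
  ext k
  have := congrArg (fun q => ((q.coeff k : ℝ) : ℂ)) h
  simp only [coeff_sub, coeff_C_mul, coeff_derivative, coeff_reflect, coeff_map] at this ⊢
  simpa using this

lemma no_real_root {r : ℤ} {μ c : ℝ} (hL : Lk c r μ r) {f : ℝ[X]} (hf : f ≠ 0) {u : ℂ}
    (hu : u ≠ 0) (h : Lin r μ c (fun τ => u * (f.map Complex.ofRealHom).eval (cis τ))) :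
    ∀ x ∈ Icc (0 : ℝ) 1, f.eval x ≠ 0 := by
  intro x hx hx0
  have h0 : u * (f.map Complex.ofRealHom).eval (cis 0) ≠ 0 := by
    intro h0
    have h1 := h.unique (Lin.zero r μ c) (t₀ := 0) h0
    have h2 : f.map Complex.ofRealHom = 0 := poly_eq_zero_of_cis fun τ =>
      (mul_eq_zero.mp (congrFun h1 τ)).resolve_left hu
    exact hf ((Polynomial.map_eq_zero_iff Complex.ofReal_injective).mp h2)
  obtain ⟨L, hL1, hL2, hL3⟩ := hL.exists_log h h0 (by simp only [cis_two_pi, cis_zero])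
  have := no_root_of_log (p := C u * f.map Complex.ofRealHom) hL1
    (fun τ => by rw [hL2, eval_mul, eval_C]) hL3 (a := x) (by
      have : (f.map Complex.ofRealHom).eval (Complex.ofRealHom x) = Complex.ofRealHom (f.eval x) :=
        by rw [eval_map, eval₂_hom]
      rw [IsRoot.def, eval_mul, eval_C]
      simp only [ofRealHom_eq_coe] at this
      rw [this, hx0]; simp)
  rw [Complex.norm_real, Real.norm_of_nonneg hx.1] at this
  linarith [hx.2]

lemma no_bad {N : ℕ} {μ μ' s : ℝ} (hs : 0 < s) (hμ : 0 < μ) (hμ' : μ ≤ μ') {e : ℕ → ℝ}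
    (he : Sub N μ' s e)
    (hL : Lk s ((-((N + 1 : ℕ) : ℤ) : ℤ) : ℝ) μ (-((N + 1 : ℕ) : ℤ))) {E : ℝ → ℂ}
    (hE : Lin ((-((N + 1 : ℕ) : ℤ) : ℤ) : ℝ) μ s E) (hper : E (2 * π) = E 0) :
    (E 0).im = 0 ∧ (μ < μ' → E 0 = 0) := by
  have hcast : ((-((N + 1 : ℕ) : ℤ) : ℤ) : ℝ) = -((N + 1 : ℕ) : ℝ) := by
    rw [Int.cast_neg, Int.cast_natCast]
  have hE' := hE
  rw [hcast] at hE'
  have h1 := hE'.Dop_iter_zero hper (he.super (by linarith) hs) (by linarith)
    (by rwa [abs_of_pos hμ]) rfl hs.ne'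
  obtain ⟨p, hp, hp'⟩ := exists_poly _ hE'.contDiff h1
  have hpN : p.natDegree ≤ N := natDegree_le_iff_coeff_eq_zero.mpr fun k hk => hp k hk
  rw [funext hp'] at hE'
  obtain ⟨f, g, hf, hg, hf', hg', h2⟩ := exists_re_im hpN ((lin_iff_poly hpN).mp hE')
  have hg0 : g = 0 := by
    by_contra hg0
    have h3 := (lin_of_real_poly hg hg').mul_I
    rw [neg_neg, ← hcast] at h3
    have h4 := (axis hμ (neg_ne_zero.mpr hs.ne') hg hg' (no_real_root hL hg0 I_ne_zero h3)).1
    linarith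
  rw [hp' 0, cis_zero, h2, hg0]
  refine ⟨by simp, fun hlt => ?_⟩
  have hf0 : f = 0 := by
    by_contra hf0
    have h3 := (lin_of_real_poly hf hf').smul 1
    rw [← hcast] at h3
    have h4 := (axis hμ hs.ne' hf hf' (no_real_root hL hf0 (by simp) h3)).2 μ' e he
    linarith
  simp [hf0]

end Pool.Agent.Lib.MP_42e615_an
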