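import Pool.Agent.Lib.MP_42e615_an.Fourier

set_option autoImplicit false

open Real Set Filter Topology Finset

namespace Pool.Agent.Lib.MP_42e615_an

def Sub (N : ℕ) (μ s : ℝ) (e : ℕ → ℝ) : Prop :=
  (∀ k, 0 ≤ e k) ∧ (∀ k, N < k → e k = 0) ∧ (∃ k, e k ≠ 0) ∧
    ∀ k, k ≤ N → μ * e k ≤ (k + 1) * e (k + 1) + s * e (N - k)

lemma Sub.sum_pos {N : ℕ} {μ s : ℝ} {e : ℕ → ℝ} (h : Sub N μ s e) :
    0 < ∑ k ∈ range (N + 1), e k := by
  obtain ⟨h0, h1, ⟨k, hk⟩, -⟩ := h
  refine Finset.sum_pos' (fun i _ => h0 i) ⟨k, ?_, lt_of_le_of_ne (h0 k) hk.symm⟩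
  rw [Finset.mem_range]
  by_contra hc
  exact hk (h1 k (by omega))

lemma Sub.le_bound {N : ℕ} {μ s : ℝ} (hs : 0 ≤ s) {e : ℕ → ℝ} (h : Sub N μ s e) :
    μ ≤ N + 1 + s := by
  obtain ⟨k, hk, hmax⟩ := Finset.exists_max_image (range (N + 1)) e ⟨0, by simp⟩
  have hk' : k ≤ N := by simpa [Nat.lt_succ_iff] using hk
  obtain ⟨h0, h1, ⟨j, hj⟩, h2⟩ := h
  have hall : ∀ i, e i ≤ e k := by
    intro i
    by_cases hi : i ≤ N
    · exact hmax i (by simpa [Nat.lt_succ_iff] using hi)
    · rw [h1 i (by omega)]; exact h0 k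
  have hpos : 0 < e k := lt_of_lt_of_le (lt_of_le_of_ne (h0 j) hj.symm) (hall j)
  have h3 := h2 k hk'
  have h4 : ((k : ℝ) + 1) * e (k + 1) ≤ (N + 1) * e k := by
    have : (k : ℝ) ≤ N := by exact_mod_cast hk'
    exact mul_le_mul (by linarith) (hall _) (h0 _) (by positivity)
  have h5 : s * e (N - k) ≤ s * e k := mul_le_mul_of_nonneg_left (hall _) hs
  have h6 : μ * e k ≤ (N + 1 + s) * e k := by linarith
  exact le_of_mul_le_mul_right h6 hpos

lemma exists_mu0 (N : ℕ) {s : ℝ} (hs : 0 < s) : ∃ μ₀ : ℝ, 0 < μ₀ ∧ (∃ e, Sub N μ₀ s e) ∧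
    ∀ μ e, Sub N μ s e → μ ≤ μ₀ := by
  set K₀ : Set (ℝ × (ℕ → ℝ)) := Icc (0 : ℝ) (N + 1 + s) ×ˢ
    Set.pi univ (fun k => Icc (0 : ℝ) (if k ≤ N then 1 else 0)) with hK₀
  set K : Set (ℝ × (ℕ → ℝ)) := K₀ ∩ ({p | ∑ k ∈ range (N + 1), p.2 k = 1} ∩
    ⋂ k : ℕ, {p | k ≤ N → p.1 * p.2 k ≤ (k + 1) * p.2 (k + 1) + s * p.2 (N - k)}) with hK
  have hc : IsCompact K := by
    refine (isCompact_Icc.prod (isCompact_univ_pi fun _ => isCompact_Icc)).inter_right
      (IsClosed.inter (isClosed_eq (by fun_prop) continuous_const) (isClosed_iInter fun k => ?_))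
    by_cases hk : k ≤ N
    · simp only [hk, forall_true_left]
      exact isClosed_le (by fun_prop) (by fun_prop)
    · simp [hk]
  have hmem : ∀ μ e, Sub N μ s e → 0 ≤ μ →
      ((μ, fun k => e k / ∑ i ∈ range (N + 1), e i) : ℝ × (ℕ → ℝ)) ∈ K := by
    intro μ e h hμ
    have hS := h.sum_pos
    refine ⟨⟨⟨hμ, h.le_bound hs.le⟩, fun k _ => ⟨div_nonneg (h.1 k) hS.le, ?_⟩⟩, ?_, ?_⟩
    · split_ifs with hk
      · rw [div_le_one hS]
        exact Finset.single_le_sum (fun i _ => h.1 i) (by simpa [Nat.lt_succ_iff] using hk)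
      · simp [h.2.1 k (by omega)]
    · simp only [mem_ofPred_eq]
      rw [← Finset.sum_div, div_self hS.ne']
    · refine mem_iInter.mpr fun k hk => ?_
      have := div_le_div_of_nonneg_right (h.2.2.2 k hk) hS.le
      simp only
      rw [← mul_div_assoc, ← mul_div_assoc, ← mul_div_assoc, ← add_div]
      exact this
  have h1 : Sub N s s (fun k => if k ≤ N then 1 else 0) := by
    refine ⟨fun k => by beta_reduce; split_ifs <;> norm_num, fun k hk => by simp; omega, ⟨0, by simp⟩,
      fun k hk => ?_⟩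
    have : (0 : ℝ) ≤ (k + 1) * (if k + 1 ≤ N then 1 else 0) := by split_ifs <;> positivity
    simp only [hk, if_true, Nat.sub_le]
    linarith
  obtain ⟨p, hp, hmax⟩ := hc.exists_isMaxOn ⟨_, hmem _ _ h1 hs.le⟩ continuous_fst.continuousOn
  have hps : s ≤ p.1 := hmax (hmem _ _ h1 hs.le)
  refine ⟨p.1, by linarith, ⟨p.2, fun k => (hp.1.2 k trivial).1, fun k hk => ?_, ?_,
    fun k hk => mem_iInter.mp hp.2.2 k hk⟩, fun μ e h => ?_⟩
  · have := hp.1.2 k trivial
    beta_reduce at this
    rw [if_neg (by omega)] at this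
    exact le_antisymm this.2 this.1
  · by_contra hc'
    push Not at hc'
    have := hp.2.1
    simp [hc'] at this
  · rcases le_total 0 μ with hμ | hμ
    · exact hmax (hmem μ e h hμ)
    · linarith

lemma sum_shift (N : ℕ) (e F : ℕ → ℝ) (he : e (N + 1) = 0) :
    ∑ i ∈ range (N + 1), ((i : ℝ) + 1) * e (i + 1) * F (i + 1) =
      ∑ i ∈ range (N + 1), (i : ℝ) * e i * F i := by
  rw [Finset.sum_range_succ, he, Finset.sum_range_succ' (fun i => (i : ℝ) * e i * F i)]
  simp

lemma Sub.super {N : ℕ} {μ s : ℝ} (hμ : 0 < μ) (hs : 0 < s) {e : ℕ → ℝ} (h : Sub N μ s e) :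
    Super (N + 1) μ s := by
  set g : ℕ → ℝ := fun m => (m.factorial : ℝ) / μ ^ (m + 1) with hg
  have hgpos : ∀ m, 0 < g m := fun m => by simp only [hg]; positivity
  have hgs : ∀ m, μ * g (m + 1) = (m + 1) * g m := by
    intro m
    simp only [hg, Nat.factorial_succ]
    push_cast
    field_simp
    ring
  obtain ⟨h0, h1, ⟨j, hj⟩, h2⟩ := h
  have hjN : j ≤ N := by
    by_contra hc
    exact hj (h1 j (by omega))
  have hej : 0 < e j := lt_of_le_of_ne (h0 j) hj.symm
  set lam : ℕ → ℝ := fun k => ∑ i ∈ range (N + 1), e i * g (k + (N - i)) with hlam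
  set nu : ℕ → ℝ := fun k => ∑ i ∈ range (N + 1), e i * g (k + i) with hnu
  have hrefl : ∀ F : ℕ → ℝ, ∑ i ∈ range (N + 1), e (N - i) * F i =
      ∑ i ∈ range (N + 1), e i * F (N - i) := by
    intro F
    rw [← Finset.sum_range_reflect]
    refine Finset.sum_congr rfl fun i hi => ?_
    have := Finset.mem_range.mp hi
    congr 2; omega
  have hlow : ∀ k, e j * g (k + (N - j)) ≤ lam k := fun k =>
    Finset.single_le_sum (f := fun i => e i * g (k + (N - i)))
      (fun i _ => mul_nonneg (h0 i) (hgpos _).le) (by simpa [Nat.lt_succ_iff] using hjN)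
  have hA : ∀ k : ℕ, (k + 1) * nu k ≤ s * lam (k + 1) := by
    intro k
    have h3 : ∑ i ∈ range (N + 1), μ * e i * g (k + 1 + i) ≤
        ∑ i ∈ range (N + 1), (((i : ℝ) + 1) * e (i + 1) * g (k + (i + 1)) +
          s * (e (N - i) * g (k + 1 + i))) := by
      refine Finset.sum_le_sum fun i hi => ?_
      have := mul_le_mul_of_nonneg_right (h2 i (by simpa [Nat.lt_succ_iff] using hi))
        (hgpos (k + 1 + i)).le
      rw [show k + (i + 1) = k + 1 + i by ring]
      linarith
    rw [Finset.sum_add_distrib, sum_shift N e (fun i => g (k + i)) (h1 _ (by omega)),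
      ← Finset.mul_sum, hrefl (fun i => g (k + 1 + i))] at h3
    have h4 : ∑ i ∈ range (N + 1), μ * e i * g (k + 1 + i) =
        (k + 1) * nu k + ∑ i ∈ range (N + 1), (i : ℝ) * e i * g (k + i) := by
      simp only [hnu]
      rw [Finset.mul_sum, ← Finset.sum_add_distrib]
      refine Finset.sum_congr rfl fun i _ => ?_
      have := hgs (k + i)
      rw [show k + 1 + i = k + i + 1 by ring]
      push_cast at this
      linear_combination e i * this
    simp only [hlam]
    linarith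
  have hB : ∀ k : ℕ, μ * (lam k + lam (k + 2)) ≤ (k + 2 + N) * lam (k + 1) + s * nu k := by
    intro k
    have h3 : ∑ i ∈ range (N + 1), μ * e i * g (k + (N - i)) ≤
        ∑ i ∈ range (N + 1), (((i : ℝ) + 1) * e (i + 1) * g (k + 1 + N - (i + 1)) +
          s * (e (N - i) * g (k + (N - i)))) := by
      refine Finset.sum_le_sum fun i hi => ?_
      have hi' : i ≤ N := by simpa [Nat.lt_succ_iff] using hi
      have := mul_le_mul_of_nonneg_right (h2 i hi') (hgpos (k + (N - i))).le
      rw [show k + 1 + N - (i + 1) = k + (N - i) by omega]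
      linarith
    rw [Finset.sum_add_distrib, sum_shift N e (fun i => g (k + 1 + N - i)) (h1 _ (by omega)),
      ← Finset.mul_sum, hrefl (fun i => g (k + (N - i)))] at h3
    have h4 : ∑ i ∈ range (N + 1), e i * g (k + (N - (N - i))) = nu k := by
      refine Finset.sum_congr rfl fun i hi => ?_
      have := Finset.mem_range.mp hi
      congr 2; omega
    have h5 : ∑ i ∈ range (N + 1), μ * e i * g (k + (N - i)) = μ * lam k := by
      simp only [hlam]
      rw [Finset.mul_sum]
      exact Finset.sum_congr rfl fun i _ => by ring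
    have h6 : μ * lam (k + 2) + ∑ i ∈ range (N + 1), (i : ℝ) * e i * g (k + 1 + N - i) =
        (k + 2 + N) * lam (k + 1) := by
      simp only [hlam]
      rw [Finset.mul_sum, Finset.mul_sum, ← Finset.sum_add_distrib]
      refine Finset.sum_congr rfl fun i hi => ?_
      have hi' : i ≤ N := by simpa [Nat.lt_succ_iff] using hi
      have := hgs (k + 1 + (N - i))
      rw [show k + 2 + (N - i) = k + 1 + (N - i) + 1 by ring,
        show k + 1 + N - i = k + 1 + (N - i) by omega]
      push_cast [Nat.cast_sub hi'] at this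
      linear_combination e i * this
    rw [h4, h5] at h3
    linarith
  refine ⟨lam, fun k => lt_of_lt_of_le (mul_pos hej (hgpos _)) (hlow k), fun k => ?_, ?_⟩
  · have h3 := mul_le_mul_of_nonneg_left (hB k) (by positivity : (0 : ℝ) ≤ k + 1)
    have h4 := mul_le_mul_of_nonneg_left (hA k) hs.le
    push_cast
    nlinarith
  · refine tendsto_atTop_mono hlow (Tendsto.const_mul_atTop hej ?_)
    have h3 : Tendsto g atTop atTop := by
      have h4 := (FloorSemiring.tendsto_pow_div_factorial_atTop μ).mul_const μ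
      rw [zero_mul] at h4
      have h5 : Tendsto (fun n : ℕ => μ ^ n / (n.factorial : ℝ) * μ) atTop (𝓝[>] 0) :=
        tendsto_nhdsWithin_iff.mpr ⟨h4, Eventually.of_forall fun n => by
          simp only [Set.mem_Ioi]; positivity⟩
      refine h5.inv_tendsto_nhdsGT_zero.congr fun n => ?_
      simp only [hg, Pi.inv_apply]
      field_simp
      ring
    exact h3.comp (tendsto_add_atTop_nat _)

end Pool.Agent.Lib.MP_42e615_an
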