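import Pool.Agent.Lib.MP_42e615_an.PolySol

set_option autoImplicit false

open Real Set Filter Topology Complex ComplexConjugate

namespace Pool.Agent.Lib.MP_42e615_an

lemma exists_ker {a b : ℂ} (h : normSq a = normSq b) : ∃ x : ℂ, x ≠ 0 ∧ a * x + b * conj x = 0 := by
  by_cases ha : a = 0
  · have hb : b = 0 := by
      rw [ha, map_zero] at h
      exact normSq_eq_zero.mp h.symm
    exact ⟨1, one_ne_zero, by simp [ha, hb]⟩
  · have hn : ‖-b / a‖ = 1 := by
      rw [Complex.normSq_eq_norm_sq, Complex.normSq_eq_norm_sq,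
        sq_eq_sq₀ (norm_nonneg _) (norm_nonneg _)] at h
      rw [norm_div, norm_neg, ← h, div_self (norm_ne_zero_iff.mpr ha)]
    have h1 : cis (arg (-b / a)) = -b / a := by
      have := Complex.norm_mul_exp_arg_mul_I (-b / a)
      rw [hn] at this
      simpa [cis] using this
    set θ := arg (-b / a)
    refine ⟨cis (θ / 2), cis_ne_zero _, ?_⟩
    have h2 : cis (θ / 2) = cis θ * cis (-(θ / 2)) := by
      rw [← cis_add]; congr 1; ring
    rw [cis_conj]
    nth_rewrite 1 [h2]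
    rw [h1]
    field_simp
    ring

lemma commute_alg {A B p q : ℂ} (hAB : normSq A < normSq B)
    (h : ∀ x : ℂ, A * (p * x + q * conj x) + B * conj (p * x + q * conj x) =
      p * (A * x + B * conj x) + q * conj (A * x + B * conj x)) :
    |p.im| < ‖q‖ ∨ (q = 0 ∧ p.im = 0) := by
  have h1 := h 1
  have h2 := h I
  simp only [map_add, map_mul, map_one, Complex.conj_I, map_neg] at h1 h2
  have h3 : B * (p - conj p) = q * (A - conj A) := by
    linear_combination (-1 / 2) * h1 + (-I / 2) * h2 +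
      ((A * p - A * q - B * conj p + B * conj q - p * A + p * B + q * conj A - q * conj B) / 2) *
        I_mul_I
  rw [Complex.sub_conj, Complex.sub_conj] at h3
  have h4 := congrArg norm h3
  simp only [norm_mul, norm_I, Complex.norm_real, Real.norm_eq_abs, abs_two,
    mul_one] at h4
  have h5 : ‖A‖ < ‖B‖ := by
    rwa [Complex.normSq_eq_norm_sq, Complex.normSq_eq_norm_sq,
      sq_lt_sq₀ (norm_nonneg _) (norm_nonneg _)] at hAB
  have h6 : |A.im| ≤ ‖A‖ := Complex.abs_im_le_norm A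
  have hB : 0 < ‖B‖ := lt_of_le_of_lt (norm_nonneg _) h5
  by_cases hq : q = 0
  · right
    refine ⟨hq, ?_⟩
    rw [hq, norm_zero, zero_mul] at h4
    have := (mul_eq_zero.mp h4).resolve_left hB.ne'
    simpa using this
  · left
    have hq' : 0 < ‖q‖ := norm_pos_iff.mpr hq
    by_contra hc
    push Not at hc
    nlinarith [mul_le_mul_of_nonneg_left hc hB.le, mul_lt_mul_of_pos_left (h6.trans_lt h5) hq']

lemma Lin.shift_pi {l : ℕ} {μ c : ℝ} {H : ℝ → ℂ} (h : Lin l μ c H) :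
    Lin l (-μ) ((-1) ^ l * c) (fun τ => H (τ + π)) := by
  intro τ
  refine ((h (τ + π)).comp_add_const τ π).congr_deriv ?_
  have : cis (-(l : ℝ) * (τ + π)) = (-1) ^ l * cis (-l * τ) := by
    have h1 : cis (-π) = -1 := by rw [← cis_conj, cis_pi]; simp
    rw [← h1, cis_pow, ← cis_add]; congr 1; ring
  rw [this, cis_add, cis_pi]
  push_cast; ring

noncomputable def Th (l : ℕ) (μ : ℝ) (E : ℝ → ℂ) : ℝ → ℂ := fun τ =>
  I * (conj (Dop^[l] E (τ + π)) * (Real.exp (-(2 * -μ) * Real.cos τ) : ℝ))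

lemma Lin.th {l : ℕ} {μ c : ℝ} {E : ℝ → ℂ} (h : Lin (-(l : ℝ)) μ c E) :
    Lin (-(l : ℝ)) μ c (Th l μ E) := by
  have h1 := h.W.shift_pi.flip.mul_I
  have h2 : (-1 : ℝ) ^ l * ((-1) ^ l * c) = c := by
    rw [← mul_assoc, ← mul_pow]; simp
  rw [neg_neg, neg_neg, h2] at h1
  exact h1

lemma Th_shift (l : ℕ) (μ : ℝ) (E : ℝ → ℂ) :
    Th l μ (fun τ => E (τ + 2 * π)) 0 = Th l μ E (2 * π) := by
  simp only [Th, Dop_iter_shift, Real.cos_zero, Real.cos_two_pi, zero_add, add_comm π (2 * π)]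

lemma exists_theta {N : ℕ} {μ s : ℝ} (hμ : 0 < μ) (hno : ∀ e, ¬ Sub N μ s e) {c : ℝ}
    (hc : c ∈ Icc 0 s) : ∃ A B : ℂ, normSq A < normSq B ∧
      ∀ E, Lin (-((N + 1 : ℕ) : ℝ)) μ c E → Th (N + 1) μ E 0 = A * E 0 + B * conj (E 0) := by
  obtain ⟨a, b, ha, hb, hb0, hab⟩ := exists_coeffs (-((N + 1 : ℕ) : ℝ)) μ (N + 1)
  set f : ℝ → ℝ := fun t => normSq (a (t, 0)) - normSq (b (t, 0)) with hf
  have hfc : Continuous f := by
    have h1 := ha.continuous
    have h2 := hb.continuous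
    exact (Complex.continuous_normSq.comp (h1.comp (by fun_prop))).sub
      (Complex.continuous_normSq.comp (h2.comp (by fun_prop)))
  have hne : ∀ t ∈ Icc 0 s, f t ≠ 0 := by
    intro t ht h0
    obtain ⟨x, hx, hx'⟩ := exists_ker (sub_eq_zero.mp h0)
    obtain ⟨E, hE, hE0⟩ := exists_lin (-((N + 1 : ℕ) : ℝ)) μ t x
    have h1 := hE.W.unique (Lin.zero _ _ _) (t₀ := 0) (by rw [hab t E hE 0, hE0, hx'])
    obtain ⟨p, hp, hp'⟩ := exists_poly _ hE.contDiff h1
    have hpN : p.natDegree ≤ N :=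
      Polynomial.natDegree_le_iff_coeff_eq_zero.mpr fun k hk => hp k hk
    rw [funext hp'] at hE
    have h2 := poly_eq_zero_of_no_sub hμ.le (by rw [abs_of_nonneg ht.1]; exact ht.2) hno hpN
      ((lin_iff_poly hpN).mp hE)
    rw [hp' 0, h2, Polynomial.eval_zero] at hE0
    exact hx hE0.symm
  have h0 : (0 : ℝ) ∈ Icc 0 s := ⟨le_rfl, hc.1.trans hc.2⟩
  have hf0 : 0 ≤ f 0 := by simp [hf, hb0, normSq_nonneg]
  have hpos : 0 < f c := by
    by_contra h1
    obtain ⟨y, hy, hy'⟩ := isPreconnected_Icc.intermediate_value₂ hc h0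
      hfc.continuousOn continuousOn_const (not_lt.mp h1) hf0
    exact hne y hy hy'
  obtain ⟨p, q, hpq, hdet⟩ := exists_rep ((N + 1 : ℕ) : ℝ) μ ((-1) ^ (N + 1) * c) π
  have hdet' : 0 < normSq p - normSq q := by
    by_contra h1
    have := mul_nonpos_of_nonpos_of_nonneg (not_lt.mp h1)
      (Real.exp_pos (-(2 * μ) * Real.cos π)).le
    linarith [Real.exp_pos (-(2 * μ))]
  set ρ := Real.exp (-(2 * -μ) * Real.cos 0) with hρ
  have hρ0 : 0 < ρ := Real.exp_pos _
  refine ⟨I * ρ * conj (p * b (c, 0) + q * conj (a (c, 0))),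
    I * ρ * conj (p * a (c, 0) + q * conj (b (c, 0))), ?_, fun E hE => ?_⟩
  · simp only [map_mul, normSq_I, normSq_ofReal, normSq_conj, one_mul]
    refine mul_lt_mul_of_pos_left ?_ (mul_pos hρ0 hρ0)
    have : normSq (p * a (c, 0) + q * conj (b (c, 0))) -
        normSq (p * b (c, 0) + q * conj (a (c, 0))) = (normSq p - normSq q) * f c := by
      simp only [hf, normSq_apply, add_re, add_im, mul_re, mul_im, conj_re, conj_im]
      ring
    linarith [mul_pos hdet' hpos]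
  · simp only [Th, zero_add]
    rw [hpq _ hE.W, hab c E hE 0, ← hρ]
    simp only [map_add, map_mul, Complex.conj_conj]
    ring

lemma mono_dichotomy {N : ℕ} {μ s : ℝ} (hμ : 0 < μ) (hno : ∀ e, ¬ Sub N μ s e) {c : ℝ}
    (hc : c ∈ Icc 0 s) {p q : ℂ} (h : IsMono ((-((N + 1 : ℕ) : ℤ) : ℤ) : ℝ) μ c p q) :
    |p.im| < ‖q‖ ∨ (q = 0 ∧ p.im = 0) := by
  have hcast : ((-((N + 1 : ℕ) : ℤ) : ℤ) : ℝ) = -((N + 1 : ℕ) : ℝ) := by
    rw [Int.cast_neg, Int.cast_natCast]
  obtain ⟨A, B, hAB, hT⟩ := exists_theta hμ hno hc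
  refine commute_alg hAB fun x => ?_
  obtain ⟨E, hE, hE0⟩ := exists_lin ((-((N + 1 : ℕ) : ℤ) : ℤ) : ℝ) μ c x
  have h1 := hE.shift
  have h2 := h.1 E hE
  rw [hcast] at hE h1 h
  have h3 := hT _ h1
  rw [Th_shift, h.1 _ hE.th, hT E hE, zero_add, h2, hE0] at h3
  exact h3.symm

end Pool.Agent.Lib.MP_42e615_an
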