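import Pool.Agent.Lib.MP_42e615_an.Sub

set_option autoImplicit false

open Real Set Filter Topology Complex ComplexConjugate

namespace Pool.Agent.Lib.MP_42e615_an

lemma one_sub_mem_slitPlane {w : ℂ} (hw : ‖w‖ < 1) : 1 - w ∈ slitPlane := by
  left
  have := (Complex.re_le_norm w)
  simp only [sub_re, one_re]; linarith

lemma exists_log_factor {a : ℂ} (ha : ‖a‖ ≠ 1) : ∃ (L : ℝ → ℂ) (n : ℕ), Differentiable ℝ L ∧
    (∀ τ, Complex.exp (L τ) = cis τ - a) ∧ (L (2 * π)).im - (L 0).im = 2 * π * n ∧
    (n = 0 → 1 < ‖a‖) := by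
  rcases lt_or_gt_of_ne ha with ha | ha
  · have hm : ∀ τ, 1 - a * cis (-τ) ∈ slitPlane := fun τ =>
      one_sub_mem_slitPlane (by rw [norm_mul, norm_cis, mul_one]; exact ha)
    refine ⟨fun τ => τ * I + Complex.log (1 - a * cis (-τ)), 1, fun τ => ?_, fun τ => ?_, ?_,
      by simp⟩
    · have h1 : HasDerivAt (fun t : ℝ => (t : ℂ) * I) _ τ :=
        (hasDerivAt_id τ).ofReal_comp.mul_const I
      have h2 : DifferentiableAt ℝ (fun t : ℝ => 1 - a * cis (-t)) τ :=
        (differentiableAt_const _).sub ((differentiableAt_const _).mul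
          ((contDiff_cis_neg.differentiable (by simp)) τ))
      exact h1.differentiableAt.add (h2.hasDerivAt.clog_real (hm τ)).differentiableAt
    · rw [Complex.exp_add, Complex.exp_log (slitPlane_ne_zero (hm τ))]
      change cis τ * _ = _
      linear_combination (-a) * cis_mul_neg τ
    · have h1 : cis (-(2 * π)) = cis (-0) := by
        rw [← cis_conj, ← cis_conj, cis_two_pi, cis_zero]
      simp only [h1]
      simp
  · have ha0 : a ≠ 0 := by
      rintro rfl
      simp at ha; linarith
    have hm : ∀ τ, 1 - cis τ / a ∈ slitPlane := fun τ =>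
      one_sub_mem_slitPlane (by rw [norm_div, norm_cis, div_lt_one (by linarith)]; exact ha)
    refine ⟨fun τ => Complex.log (-a) + Complex.log (1 - cis τ / a), 0, fun τ => ?_, fun τ => ?_,
      ?_, fun _ => ha⟩
    · have h2 : HasDerivAt (fun t : ℝ => 1 - cis t / a) _ τ :=
        ((hasDerivAt_cis' τ).div_const a).const_sub 1
      exact (differentiableAt_const _).add (h2.clog_real (hm τ)).differentiableAt
    · rw [Complex.exp_add, Complex.exp_log (slitPlane_ne_zero (hm τ)),
        Complex.exp_log (neg_ne_zero.mpr ha0)]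
      field_simp
      ring
    · simp [cis_two_pi, cis_zero]

lemma exists_log_prod (s : Multiset ℂ) (hs : ∀ a ∈ s, ‖a‖ ≠ 1) :
    ∃ (L : ℝ → ℂ) (n : ℕ), Differentiable ℝ L ∧
    (∀ τ, Complex.exp (L τ) = (s.map (fun a => cis τ - a)).prod) ∧
    (L (2 * π)).im - (L 0).im = 2 * π * n ∧ (n = 0 → ∀ a ∈ s, 1 < ‖a‖) := by
  induction s using Multiset.induction_on with
  | empty => exact ⟨fun _ => 0, 0, differentiable_const _, by simp, by simp, by simp⟩
  | cons a s ih =>
    obtain ⟨L, n, h1, h2, h3, h4⟩ := ih fun b hb => hs b (Multiset.mem_cons_of_mem hb)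
    obtain ⟨L', n', h1', h2', h3', h4'⟩ := exists_log_factor (hs a (Multiset.mem_cons_self a s))
    refine ⟨fun τ => L' τ + L τ, n' + n, h1'.add h1, fun τ => ?_, ?_, fun hn b hb => ?_⟩
    · rw [Complex.exp_add, h2, h2', Multiset.map_cons, Multiset.prod_cons]
    · simp only [add_im]; push_cast; linarith
    · rcases Multiset.mem_cons.mp hb with rfl | hb
      · exact h4' (by omega)
      · exact h4 (by omega) b hb

lemma no_root_of_log {p : Polynomial ℂ} {L : ℝ → ℂ} (hL : Differentiable ℝ L)
    (h : ∀ τ, Complex.exp (L τ) = p.eval (cis τ)) (hper : (L (2 * π)).im = (L 0).im)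
    {a : ℂ} (ha : p.IsRoot a) : 1 < ‖a‖ := by
  have hp : p ≠ 0 := by
    rintro rfl
    exact Complex.exp_ne_zero (L 0) (by rw [h 0, Polynomial.eval_zero])
  have hs : ∀ b ∈ p.roots, ‖b‖ ≠ 1 := by
    intro b hb hb1
    have h1 : cis (arg b) = b := by
      have := Complex.norm_mul_exp_arg_mul_I b
      rw [hb1] at this
      simpa [cis] using this
    have h2 := h (arg b)
    rw [h1, (Polynomial.mem_roots hp).mp hb] at h2
    exact Complex.exp_ne_zero _ h2
  obtain ⟨L', n, h1, h2, h3, h4⟩ := exists_log_prod p.roots hs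
  refine h4 ?_ a ((Polynomial.mem_roots hp).mpr ha)
  have hd : ∀ τ, HasDerivAt (fun t => L t - L' t) 0 τ := by
    intro τ
    have e1 : (fun t => Complex.exp (L t)) = fun t => p.leadingCoeff * Complex.exp (L' t) := by
      ext t
      rw [h, h2, (IsAlgClosed.splits p).eval_eq_prod_roots]
    have d1 := (hL τ).hasDerivAt.cexp
    have d2 := (h1 τ).hasDerivAt.cexp.const_mul p.leadingCoeff
    rw [e1] at d1
    have d3 := d1.unique d2
    rw [congrFun e1 τ, mul_assoc] at d3
    have d4 := mul_left_cancel₀ (Complex.exp_ne_zero _)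
      (mul_left_cancel₀ (Polynomial.leadingCoeff_ne_zero.mpr hp) d3)
    refine ((hL τ).hasDerivAt.sub (h1 τ).hasDerivAt).congr_deriv ?_
    rw [d4, sub_self]
  have := is_const_of_deriv_eq_zero (fun t => (hd t).differentiableAt) (fun t => (hd t).deriv)
    (2 * π) 0
  have h5 := congrArg Complex.im this
  simp only [sub_im] at h5
  have h6 : 2 * π * n = 0 := by linarith
  have h7 : (n : ℝ) = 0 := (mul_eq_zero.mp h6).resolve_left (by positivity)
  exact_mod_cast h7

end Pool.Agent.Lib.MP_42e615_an
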